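import Pool.Agent.helper35.MF.Lev
import Pool.Agent.helper71.MF7b

set_option autoImplicit false

/-!
# MP_141f81, Sections 7 and 8: the input `In7` (contract between the rows and the abstract part)

`X` is the type of all letters (role, symbol), `XS` the finite set of the letters of the rows of `S` (role `≠ 0`); `T` the
lines, `D` the coarse set (`CoarseF`).  A slot is a sub-structure: `T' ⊆ T` its lines, `P` its letters.  There is a slot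
`Tl p`, `Pl p` for (the rows through) a letter `p`, a slot `Tm p`, `Pm p` for (the rows through) a line `p = (x, y)`, the
slot `T1`, `P1` of all rows and its image `Ts`, `Ps` under the squaring `φ`.  `Ml p` is the multiplication by the letter
`p`.  `A0` is the set of pairs `(x, y)` of letters of the roles `a`, `b` of the rows; `th` the letter of the role `a + b`,
`pxy`, `pxu`, `sq` the letters of the roles `a b`, `a (a + b)`, `a ^ 2`.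
-/

namespace Pool.Agent.helper16.MF

open Pool.Agent.helper35.MF

/-- the constants -/
structure C7 where
  /-- error, length of the words and of the lines, length of the words of `F` (`CoarseF`) -/
  κ : ℕ
  l1 : ℕ
  l0 : ℕ
  /-- number of elements of `D` in a ball -/
  M0 : ℕ
  /-- density of the letters of a slot: `n ≤ |P| a` -/
  a : ℕ
  b3 : ℕ
  b5 : ℕ
  K3 : ℕ
  K5 : ℕ
  Kd : ℕ
  /-- consistency -/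
  C : ℕ → ℕ
  /-- density of the lines: `n ^ 2 ≤ |A0| c0` -/
  c0 : ℕ
  /-- cost of a line -/
  e0 : ℕ

/-- a sub-structure: lines `T'`, letters `P` -/
structure Slot (k : C7) (n : ℕ) {X : Type} (T T' : Set (X →₀ ZMod 2)) (P : Finset X) : Prop where
  sub : T' ⊆ T
  big : n ≤ P.card * k.a
  cov3 : ∀ W : Finset (X →₀ ZMod 2),
    (∀ w ∈ W, ∃ l : List X, l.length = 3 ∧ (∀ x ∈ l, x ∈ P) ∧ wd l = w) →
    (∀ w ∈ W, ∀ w' ∈ W, w ≠ w' → w + w' ∉ Ball T' k.b3) → W.card ≤ k.K3 * n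
  cov5 : ∀ W : Finset (X →₀ ZMod 2),
    (∀ w ∈ W, ∃ l : List X, l.length = 5 ∧ (∀ x ∈ l, x ∈ P) ∧ wd l = w) →
    (∀ w ∈ W, ∀ w' ∈ W, w ≠ w' → w + w' ∉ Ball T' k.b5) → W.card ≤ k.K5 * n

/-- the input of Sections 7 and 8 -/
structure In7 (k : C7) (n : ℕ) {X : Type} (XS : Finset X) (T D F : Set (X →₀ ZMod 2))
    (A0 : Finset (X × X)) (th : X × X → X) (pxy pxu : X → X → X) (sq : X → X)
    (Tl : X → Set (X →₀ ZMod 2)) (Pl : X → Finset X) (Ml : X → (X →₀ ZMod 2) →+ (X →₀ ZMod 2))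
    (Tm : X × X → Set (X →₀ ZMod 2)) (Pm : X × X → Finset X)
    (T1 Ts : Set (X →₀ ZMod 2)) (P1 Ps : Finset X) (φ : (X →₀ ZMod 2) →+ (X →₀ ZMod 2)) : Prop where
  npos : 0 < n
  /-- the coarse set -/
  coarse : CoarseF T D F k.κ k.l1 k.l0
  Dfin : D.Finite
  sym : ∀ p ∈ XS, sy p ∈ D
  ballD : ∀ u ∈ D, {v | v ∈ D ∧ u + v ∈ Ball T ((k.l1 + 6) * k.κ + 1)}.ncard ≤ k.M0
  cons : ∀ b, ∀ p ∈ XS, ∀ Q ⊆ XS, (∀ q ∈ Q, sy p + sy q ∈ Ball T b) → Q.card ≤ k.C b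
  covD : ∀ W : Finset (X →₀ ZMod 2), (∀ w ∈ W, ∃ f ∈ D, ∃ p ∈ XS, w = f + sy p) →
    (∀ w ∈ W, ∀ w' ∈ W, w ≠ w' → w + w' ∉ Ball T k.b3) → W.card ≤ k.Kd * n
  dens : n ^ 2 ≤ A0.card * k.c0
  /-- letters -/
  Ax : ∀ p ∈ A0, p.1 ∈ XS
  Ay : ∀ p ∈ A0, p.2 ∈ XS
  Au : ∀ p ∈ A0, th p ∈ XS
  Plx : ∀ p ∈ A0, Pl p.1 ⊆ XS
  Ply : ∀ p ∈ A0, Pl p.2 ⊆ XS
  Plu : ∀ p ∈ A0, Pl (th p) ⊆ XS
  P1S : P1 ⊆ XS
  PsS : Ps ⊆ XS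
  /-- lines and the identity `x ^ 2 = x y + x (x + y)` -/
  line : ∀ p ∈ A0, sy p.1 + sy p.2 + sy (th p) ∈ Ball T k.e0
  ident : ∀ p ∈ A0, sy (sq p.1) + sy (pxy p.1 p.2) + sy (pxu p.1 (th p)) ∈ Ball T k.e0
  /-- the slots -/
  slx : ∀ p ∈ A0, Slot k n T (Tl p.1) (Pl p.1)
  sly : ∀ p ∈ A0, Slot k n T (Tl p.2) (Pl p.2)
  slu : ∀ p ∈ A0, Slot k n T (Tl (th p)) (Pl (th p))
  slm : ∀ p ∈ A0, Slot k n T (Tm p) (Pm p)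
  sl1 : Slot k n T T1 P1
  /-- (the slot `Ts`, `Ps` follows by isometry) -/
  Tss : Ts ⊆ T
  /-- the slot of a line refines the slots of its letters -/
  Tmx : ∀ p ∈ A0, Tm p ⊆ Tl p.1
  Tmy : ∀ p ∈ A0, Tm p ⊆ Tl p.2
  Tmu : ∀ p ∈ A0, Tm p ⊆ Tl (th p)
  Pmx : ∀ p ∈ A0, Pm p ⊆ Pl p.1
  Pmy : ∀ p ∈ A0, Pm p ⊆ Pl p.2
  Pmu : ∀ p ∈ A0, Pm p ⊆ Pl (th p)
  /-- the multiplications -/
  Mlx : ∀ p ∈ A0, ∀ t ∈ Tl p.1, Ml p.1 t ∈ Ball T 1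
  Mly : ∀ p ∈ A0, ∀ t ∈ Tl p.2, Ml p.2 t ∈ Ball T 1
  Mlu : ∀ p ∈ A0, ∀ t ∈ Tl (th p), Ml (th p) t ∈ Ball T 1
  Mltx : ∀ p ∈ A0, ∀ q ∈ Pl p.1, ∃ q' ∈ XS, Ml p.1 (sy q) = sy q'
  Mlty : ∀ p ∈ A0, ∀ q ∈ Pl p.2, ∃ q' ∈ XS, Ml p.2 (sy q) = sy q'
  Mltu : ∀ p ∈ A0, ∀ q ∈ Pl (th p), ∃ q' ∈ XS, Ml (th p) (sy q) = sy q'
  Msum : ∀ p ∈ A0, ∀ q ∈ Pm p, Ml p.1 (sy q) + Ml p.2 (sy q) + Ml (th p) (sy q) ∈ Ball T k.e0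
  yx : ∀ p ∈ A0, p.1 ∈ Pl p.2 ∧ Ml p.2 (sy p.1) = sy (pxy p.1 p.2)
  xy : ∀ p ∈ A0, p.2 ∈ Pl p.1 ∧ Ml p.1 (sy p.2) = sy (pxy p.1 p.2)
  ux : ∀ p ∈ A0, p.1 ∈ Pl (th p) ∧ Ml (th p) (sy p.1) = sy (pxu p.1 (th p))
  /-- the squaring -/
  φx : ∀ p ∈ A0, p.1 ∈ P1 ∧ φ (sy p.1) = sy (sq p.1)
  φT : ∀ t ∈ T1, φ t ∈ Ts
  φP : ∀ q ∈ P1, ∃ q' ∈ Ps, φ (sy q) = sy q'
  φPs : ∀ q' ∈ Ps, ∃ q ∈ P1, φ (sy q) = sy q'
  φiso : ∀ (l : List X) (r : ℕ), (∀ q ∈ l, q ∈ P1) → φ (wd l) ∈ Ball Ts r → wd l ∈ Ball T1 r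

end Pool.Agent.helper16.MF
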