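import Pool.Agent.helper16.MF.S7B

set_option autoImplicit false

/-!
# MP_141f81, Sections 7 and 8: the theorem `bounded7`
-/

namespace Pool.Agent.helper16.MF

open Pool.Agent.helper35.MF Pool.Agent.helper42.MF Pool.Agent.helper71.MF7b
open Pool.Agent.MF

/-- the range of Section 8 at the scale `C` -/
noncomputable def C7.Lm (k : C7) (C : ℕ) : ℕ := Classical.choose (S8.kill (k.c8 C))

/-- the bound of Section 8 at the scale `C` -/
noncomputable def C7.Lb (k : C7) (C : ℕ) : ℕ :=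
  Classical.choose (Classical.choose_spec (S8.kill (k.c8 C)))

theorem C7.Lb_spec (k : C7) (C : ℕ) {G : Type} [AddCommGroup G] {N : G → ℕ} {K : Set G}
    {X Y U : Type} [Fintype X] [Fintype Y] [Fintype U]
    {vx : X → G} {vy : Y → G} {vu : U → G} {A : Finset (X × Y)} {th : X × Y → U}
    {pxy : X → Y → G} {pxu : X → U → G} {sq : X → G}
    {Mx : X → G → G} {My : Y → G → G} {Mu : U → G → G} {φ : G → G}
    {D1 D2 : Finset G}
    (h : S8.KillData (k.c8 C) (k.Lm C) N K vx vy vu A th pxy pxu sq Mx My Mu φ D1 D2) :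
    ∀ e ∈ K, N e ≤ k.Lb C :=
  Classical.choose_spec (Classical.choose_spec (S8.kill (k.c8 C))) h

/-- the scales -/
noncomputable def C7.sc (k : C7) : ℕ → ℕ
  | 0 => 0
  | j + 1 => k.Cp (k.sc j) (k.Lm (k.sc j)) + k.k12

/-- number of scales -/
def C7.J (k : C7) : ℕ := 2 * (k.m2 k.s0 * 5)

/-- the final bound -/
noncomputable def C7.bound (k : C7) : ℕ := ∑ j ∈ Finset.range (k.J + 1), k.Lb (k.sc j)

/-- **`K*` is bounded**: the elements of `D` of finite area have area at most `k.bound`. -/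
theorem bounded7 (k : C7) {n : ℕ} {X : Type} {XS : Finset X} {T D F : Set (X →₀ ZMod 2)}
    {A0 : Finset (X × X)} {th : X × X → X} {pxy pxu : X → X → X} {sq : X → X}
    {Tl : X → Set (X →₀ ZMod 2)} {Pl : X → Finset X} {Ml : X → (X →₀ ZMod 2) →+ (X →₀ ZMod 2)}
    {Tm : X × X → Set (X →₀ ZMod 2)} {Pm : X × X → Finset X}
    {T1 Ts : Set (X →₀ ZMod 2)} {P1 Ps : Finset X} {φ : (X →₀ ZMod 2) →+ (X →₀ ZMod 2)}
    (h : In7 k n XS T D F A0 th pxy pxu sq Tl Pl Ml Tm Pm T1 Ts P1 Ps φ) :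
    ∀ e ∈ D, (∃ b, e ∈ Ball T b) → e ∈ Ball T k.bound := by
  classical
  have hn := h.npos
  -- the family
  let knd : Fin 5 → (X × X) → Set (X →₀ ZMod 2) × Finset X := fun t p =>
    ![(Tl p.1, Pl p.1), (Tl p.2, Pl p.2), (Tl (th p), Pl (th p)), (T1, P1), (Ts, Ps)] t
  have hpair : ∀ t, ∀ p ∈ A0, Pair (Ball T) (Ball (knd t p).1) D (Full (knd t p).2 k.L0) k.κ2 k.k12 k.K22
      k.m2 := by
    intro t p hp
    fin_cases t
    · exact slot_pair hn h.cons h.covD (h.slx p hp) (h.Plx p hp)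
    · exact slot_pair hn h.cons h.covD (h.sly p hp) (h.Ply p hp)
    · exact slot_pair hn h.cons h.covD (h.slu p hp) (h.Plu p hp)
    · exact slot_pair hn h.cons h.covD h.sl1 h.P1S
    · exact slot_pair hn h.cons h.covD (slot_sq h.sl1 h.Tss h.φT h.φP h.φPs h.φiso) h.PsS
  obtain ⟨j, hj, A, hA, hA2, hgap⟩ := good_rows A0 (Ball T) (fun t p => Ball (knd t p).1)
    (fun t p => Full (knd t p).2 k.L0) (T := Fin 5) two_eq (fun t p i j hij g hg => Ball.mono hij hg)
    (fun t p i j a b ha hb => ball_add ha hb) (s0 := k.s0) (k1 := k.k12) (M := k.m2 k.s0)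
    (fun t p hp E hE hsep => (hpair t p hp).count k.s0 E hE hsep)
    k.sc (fun j => k.Cp (k.sc j) (k.Lm (k.sc j))) (fun j => le_of_eq rfl) (fun j => by
      show k.sc j ≤ k.Cp (k.sc j) (k.Lm (k.sc j))
      unfold C7.Cp
      omega)
  rw [Fintype.card_fin] at hj
  have hA0 : A.Nonempty := by
    by_contra hcon
    rw [Finset.not_nonempty_iff_eq_empty] at hcon
    rw [hcon, Finset.card_empty] at hA2
    have h2 := h.dens
    have h3 : A0.card = 0 := by omega
    rw [h3, Nat.zero_mul] at h2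
    have h4 : 0 < n ^ 2 := pow_pos hn 2
    omega
  obtain ⟨p0, hp0⟩ := hA0
  obtain ⟨D1, hD1, hD1'⟩ := net7 h.covD
  obtain ⟨H0, hH0⟩ := exists_Hok (T := T) h.Dfin ((k.l1 + 6) * k.κ + 1)
  set Lm := k.Lm (k.sc j) with hLm
  set H := H0 + (3 * Lm + 2 * k.LBk (k.Λ Lm) + 2 * k.b3 + 10 * k.C00) + k.bound + 1 with hH
  have hkd := killData7 h (C := k.sc j) (Cp := k.Cp (k.sc j) Lm) (Lm := Lm) (H := H) le_rfl
    (hH0 H (by omega)) (by omega) hA hA2 (fun p hp => hgap p hp 0) (fun p hp => hgap p hp 1)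
    (fun p hp => hgap p hp 2) (hgap p0 hp0 3) (hgap p0 hp0 4) hD1 hD1'
  intro e he hb
  have h1 := k.Lb_spec (k.sc j) hkd e ⟨he, hb⟩
  have h2 : k.Lb (k.sc j) ≤ k.bound :=
    Finset.single_le_sum (f := fun j => k.Lb (k.sc j)) (fun i _ => Nat.zero_le _)
      (Finset.mem_range.mpr (by unfold C7.J; omega))
  exact NH_ball (by omega) (h1.trans h2)

end Pool.Agent.helper16.MF
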