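import Mathlib

set_option autoImplicit false

/-!
# MP_141f81, Section 7.2: two norms on an exact exponent 2 group

`B r`, `B' r` are the balls of two invariant norms (`B' r ⊆ B r`), `D` and `D'` coarse sets.  A chain in `D` is followed
in `D'` (`track`), the elements of `D'` reached by a chain of length `k` lie at `B'`-distance `(k+1)(k1+κ)` from a
finite set of size independent of `k` (`sheets`), and every point of a chain is `R`-close in `B` to a point of `D'` which
has linear `B'`-norm (`dense`).  `exists_gap` chooses one scale without errors for most members of a family.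
-/

namespace Pool.Agent.helper16.MF

variable {G : Type*} [AddCommGroup G]

/-- last index trick -/
theorem last_index {α : Type*} [DecidableEq α] (c : ℕ → α) (k : ℕ) (A Z : ℕ → ℕ → Prop)
    (hZ : ∀ i j t, i ≤ j → j ≤ k → c i = c j → A i t → Z j t)
    (hA : ∀ j t, j < k → Z j t → A (j + 1) (t + 1)) :
    ∀ n i t, i ≤ k → ((Finset.Icc i k).image c).card ≤ n → A i t → ∃ t' ≤ t + n, Z k t' := by
  intro n
  induction n with
  | zero =>
    intro i t hik hc _
    exfalso
    have h1 : c i ∈ (Finset.Icc i k).image c :=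
      Finset.mem_image_of_mem c (Finset.mem_Icc.mpr ⟨le_refl i, hik⟩)
    have h2 := Finset.card_pos.mpr ⟨_, h1⟩
    omega
  | succ n ih =>
    intro i t hik hc hAi
    have hne : ((Finset.Icc i k).filter fun j => c j = c i).Nonempty :=
      ⟨i, Finset.mem_filter.mpr ⟨Finset.mem_Icc.mpr ⟨le_refl i, hik⟩, rfl⟩⟩
    obtain ⟨j, hj, hmax⟩ := Finset.exists_max_image _ (fun j : ℕ => j) hne
    rw [Finset.mem_filter, Finset.mem_Icc] at hj
    have hZj := hZ i j t hj.1.1 hj.1.2 hj.2.symm hAi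
    rcases Nat.lt_or_ge j k with h1 | h1
    · have h2 := hA j t h1 hZj
      have h3 : ((Finset.Icc (j + 1) k).image c).card ≤ n := by
        have h4 : (Finset.Icc (j + 1) k).image c ⊆ ((Finset.Icc i k).image c).erase (c i) := by
          intro a ha
          obtain ⟨b, hb, rfl⟩ := Finset.mem_image.mp ha
          rw [Finset.mem_Icc] at hb
          rw [Finset.mem_erase]
          refine ⟨fun h5 => ?_, Finset.mem_image_of_mem c (Finset.mem_Icc.mpr ⟨by omega, hb.2⟩)⟩
          have h6 := hmax b (Finset.mem_filter.mpr ⟨Finset.mem_Icc.mpr ⟨by omega, hb.2⟩, h5⟩)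
          omega
        have h5 := Finset.card_le_card h4
        have h6 : c i ∈ (Finset.Icc i k).image c :=
          Finset.mem_image_of_mem c (Finset.mem_Icc.mpr ⟨le_refl i, hik⟩)
        rw [Finset.card_erase_of_mem h6] at h5
        omega
      obtain ⟨t', ht', hZ'⟩ := ih (j + 1) (t + 1) (by omega) h3 h2
      exact ⟨t', by omega, hZ'⟩
    · have h2 : j = k := by omega
      exact ⟨t, by omega, h2 ▸ hZj⟩

/-- two norms -/
structure Pair (B B' : ℕ → Set G) (D D' : Set G) (κ k1 K2 : ℕ) (m : ℕ → ℕ) : Prop where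
  two : ∀ g : G, g + g = 0
  mono : ∀ {r s : ℕ}, r ≤ s → B r ⊆ B s
  add : ∀ {r s : ℕ} {a b : G}, a ∈ B r → b ∈ B s → a + b ∈ B (r + s)
  zero' : (0 : G) ∈ B' 0
  mono' : ∀ {r s : ℕ}, r ≤ s → B' r ⊆ B' s
  add' : ∀ {r s : ℕ} {a b : G}, a ∈ B' r → b ∈ B' s → a + b ∈ B' (r + s)
  le : ∀ r, B' r ⊆ B r
  D0 : (0 : G) ∈ D'
  Dadd : ∀ a ∈ D', ∀ b ∈ D', ∃ d ∈ D', a + b + d ∈ B' κ
  cover : ∃ F : Finset G, F.card ≤ K2 ∧ ∀ e ∈ D, ∃ f ∈ F, ∃ d ∈ D', e + f + d ∈ B κ
  count : ∀ (s : ℕ) (E : Finset G), (∀ e ∈ E, e ∈ D' ∧ e ∈ B s) →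
    (∀ e ∈ E, ∀ e' ∈ E, e ≠ e' → e + e' ∉ B' k1) → E.card ≤ m s

/-- a chain in `D` starting at `0` (constant from some point on, if one wants a finite chain) -/
structure Chain (B : ℕ → Set G) (D : Set G) (R0 : ℕ) (e : ℕ → G) : Prop where
  start : e 0 = 0
  mem : ∀ k, e k ∈ D
  step : ∀ k, e k + e (k + 1) ∈ B R0

/-- the radius of `track` -/
def R2 (κ K2 R0 : ℕ) : ℕ := K2 * (4 * κ + R0) + 4 * κ

/-- the size of steps in `D'` -/
def R1 (κ K2 R0 : ℕ) : ℕ := 2 * R2 κ K2 R0 + R0 + κ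

/-- the radius of `dense` -/
def RR (κ K2 R0 : ℕ) (m : ℕ → ℕ) : ℕ :=
  R2 κ K2 R0 + 2 ^ m (R1 κ K2 R0) * (2 * κ + 2 * R2 κ K2 R0 + R0) + 2 * κ

/-- no elements of `D'` of `B`-norm at most `s0` and `B'`-norm in `(C, C']` -/
def Gap (B B' : ℕ → Set G) (D' : Set G) (s0 C Cp : ℕ) : Prop :=
  ∀ e ∈ D', e ∈ B s0 → e ∈ B' Cp → e ∈ B' C

namespace Pair

variable {B B' : ℕ → Set G} {D D' : Set G} {κ k1 K2 : ℕ} {m : ℕ → ℕ} (h : Pair B B' D D' κ k1 K2 m)
include h

theorem zero : (0 : G) ∈ B 0 := h.le 0 h.zero'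

theorem tri {r s : ℕ} {a b c : G} (h1 : a + b ∈ B r) (h2 : b + c ∈ B s) : a + c ∈ B (r + s) := by
  have h3 := h.add h1 h2
  have h4 : a + b + (b + c) = a + c := by
    rw [add_assoc, ← add_assoc b b c, h.two, zero_add]
  rwa [h4] at h3

theorem tri' {r s : ℕ} {a b c : G} (h1 : a + b ∈ B' r) (h2 : b + c ∈ B' s) : a + c ∈ B' (r + s) := by
  have h3 := h.add' h1 h2
  have h4 : a + b + (b + c) = a + c := by
    rw [add_assoc, ← add_assoc b b c, h.two, zero_add]
  rwa [h4] at h3

/-- (A1) -/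
theorem track {R0 : ℕ} {e : ℕ → G} (he : Chain B D R0 e) :
    ∃ t : ℕ → G, t 0 = 0 ∧ (∀ k, t k ∈ D') ∧ ∀ k, e k + t k ∈ B (R2 κ K2 R0) := by
  classical
  obtain ⟨F, hF, hcov⟩ := h.cover
  choose f hf d hd hfd using fun k => hcov (e k) (he.mem k)
  have key : ∀ k, ∃ t ∈ D', e k + t ∈ B (R2 κ K2 R0) := by
    intro k
    have h0 : ((Finset.Icc 0 k).image f).card ≤ K2 := by
      refine (Finset.card_le_card ?_).trans hF
      intro a ha
      obtain ⟨b, _, rfl⟩ := Finset.mem_image.mp ha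
      exact hf b
    obtain ⟨t', ht', g, hg, hg'⟩ := last_index f k
      (fun i t => ∃ g ∈ D', e i + g ∈ B (t * (4 * κ + R0)))
      (fun i t => ∃ g ∈ D', e i + g ∈ B (t * (4 * κ + R0) + 4 * κ))
      (by
        rintro i j t hij hjk hc ⟨g, hg, hg'⟩
        obtain ⟨u, hu, hu'⟩ := h.Dadd (d i) (hd i) (d j) (hd j)
        obtain ⟨w, hw, hw'⟩ := h.Dadd g hg u hu
        refine ⟨w, hw, ?_⟩
        have h1 := hfd i
        have h2 := hfd j
        rw [hc] at h1
        have h3 := h.add (h.add (h.add (h.add hg' h1) h2) (h.le _ hu')) (h.le _ hw')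
        have h4 : e i + g + (e i + f j + d i) + (e j + f j + d j) + (d i + d j + u) + (g + u + w) =
            e j + w + ((e i + e i) + (g + g) + (f j + f j) + (d i + d i) + (d j + d j) + (u + u)) := by
          abel
        rw [h4] at h3
        simp only [h.two, add_zero] at h3
        exact h.mono (by omega) h3)
      (by
        rintro j t hjk ⟨g, hg, hg'⟩
        refine ⟨g, hg, ?_⟩
        have h1 := he.step j
        rw [add_comm (e j)] at h1
        have h2 := h.tri h1 hg'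
        refine h.mono ?_ h2
        have h7 : (t + 1) * (4 * κ + R0) = t * (4 * κ + R0) + (4 * κ + R0) := by ring
        omega)
      K2 0 0 (Nat.zero_le k) h0
      ⟨0, h.D0, by rw [he.start, add_zero, Nat.zero_mul]; exact h.zero⟩
    refine ⟨g, hg, h.mono ?_ hg'⟩
    rw [R2]
    have h1 := Nat.mul_le_mul_right (4 * κ + R0) ht'
    rw [Nat.zero_add] at h1
    omega
  choose t ht ht' using key
  refine ⟨fun k => if k = 0 then 0 else t k, by simp, fun k => ?_, fun k => ?_⟩
  · dsimp only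
    split_ifs with h1
    · exact h.D0
    · exact ht k
  · dsimp only
    split_ifs with h1
    · rw [h1, he.start, add_zero]
      exact h.mono (Nat.zero_le _) h.zero
    · exact ht' k

/-- a finite net of the elements of `D'` of bounded `B`-norm -/
theorem net (s : ℕ) : ∃ E : Finset G, E.card ≤ m s ∧ ∀ x ∈ D', x ∈ B s → ∃ ε ∈ E, x + ε ∈ B' k1 := by
  classical
  let P : ℕ → Prop := fun n => ∃ E : Finset G, E.card = n ∧ (∀ e ∈ E, e ∈ D' ∧ e ∈ B s) ∧
    (∀ e ∈ E, ∀ e' ∈ E, e ≠ e' → e + e' ∉ B' k1)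
  have hP : ∀ n, P n → n ≤ m s := by
    rintro n ⟨E, rfl, h1, h2⟩
    exact h.count s E h1 h2
  have hP0 : P 0 := ⟨∅, by simp, by simp, by simp⟩
  obtain ⟨E, hE, h1, h2⟩ := Nat.findGreatest_spec (P := P) (Nat.zero_le (m s)) hP0
  refine ⟨E, ?_, fun x hx hxs => ?_⟩
  · rw [hE]
    exact Nat.findGreatest_le _
  · by_contra hcon
    push Not at hcon
    have hxE : x ∉ E := by
      intro hxE
      have h3 := hcon x hxE
      rw [h.two] at h3
      exact h3 (h.mono' (Nat.zero_le _) h.zero')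
    have h3 : P (Nat.findGreatest P (m s) + 1) := by
      refine ⟨insert x E, by rw [Finset.card_insert_of_notMem hxE, hE], fun e he => ?_, fun e he e' he' hne => ?_⟩
      · rcases Finset.mem_insert.mp he with rfl | he
        · exact ⟨hx, hxs⟩
        · exact h1 e he
      · rcases Finset.mem_insert.mp he with he1 | he1
        · rcases Finset.mem_insert.mp he' with he2 | he2
          · exact absurd (he1.trans he2.symm) hne
          · rw [he1]
            exact hcon e' he2
        · rcases Finset.mem_insert.mp he' with he2 | he2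
          · rw [he2, add_comm]
            exact hcon e he1
          · exact h2 e he1 e' he2 hne
    have h4 := Nat.le_findGreatest (hP _ h3) h3
    omega

omit h in
/-- subset sums -/
theorem subset_sums (two : ∀ g : G, g + g = 0) (E : Finset G) :
    ∃ S : Finset G, S.card ≤ 2 ^ E.card ∧ (0 : G) ∈ S ∧ ∀ σ ∈ S, ∀ ε ∈ E, σ + ε ∈ S := by
  classical
  refine ⟨E.powerset.image fun A => A.sum id, ?_, ?_, ?_⟩
  · refine Finset.card_image_le.trans ?_
    rw [Finset.card_powerset]
  · exact Finset.mem_image.mpr ⟨∅, Finset.mem_powerset.mpr (Finset.empty_subset _), by simp⟩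
  · intro σ hσ ε hε
    obtain ⟨A, hA, rfl⟩ := Finset.mem_image.mp hσ
    rw [Finset.mem_powerset] at hA
    by_cases h1 : ε ∈ A
    · refine Finset.mem_image.mpr ⟨A.erase ε, Finset.mem_powerset.mpr ((Finset.erase_subset _ _).trans hA), ?_⟩
      have h2 := Finset.add_sum_erase A id h1
      rw [← h2]
      simp only [id]
      rw [add_comm ε, add_assoc, two, add_zero]
    · refine Finset.mem_image.mpr ⟨insert ε A, Finset.mem_powerset.mpr (Finset.insert_subset hε hA), ?_⟩
      rw [Finset.sum_insert h1, id, add_comm]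

/-- the labels of a chain -/
theorem labels {R0 : ℕ} : ∃ S : Finset G, S.card ≤ 2 ^ m (R1 κ K2 R0) ∧ (0 : G) ∈ S ∧
    ∀ t : ℕ → G, t 0 = 0 → (∀ k, t k ∈ D') → (∀ k, t k + t (k + 1) ∈ B (2 * R2 κ K2 R0 + R0)) →
    ∃ σ : ℕ → G, (∀ k, σ k ∈ S) ∧ σ 0 = 0 ∧
      ∀ k, (t k + t (k + 1)) + (σ k + σ (k + 1)) ∈ B' (k1 + κ) := by
  classical
  obtain ⟨E, hE, hnet⟩ := h.net (R1 κ K2 R0)
  obtain ⟨S, hS, hS0, hSE⟩ := subset_sums h.two E
  refine ⟨S, hS.trans (Nat.pow_le_pow_right (by norm_num) hE), hS0, fun t ht0 htD hts => ?_⟩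
  have h1 : ∀ k, ∃ ε ∈ E, t k + t (k + 1) + ε ∈ B' (k1 + κ) := by
    intro k
    obtain ⟨s, hs, hs'⟩ := h.Dadd (t k) (htD k) (t (k + 1)) (htD (k + 1))
    have h2 : s ∈ B (R1 κ K2 R0) := by
      have h3 := h.add (hts k) (h.le _ hs')
      have h4 : t k + t (k + 1) + (t k + t (k + 1) + s) = s + ((t k + t k) + (t (k + 1) + t (k + 1))) := by abel
      rw [h4, h.two, h.two, add_zero, add_zero] at h3
      exact h3
    obtain ⟨ε, hε, hε'⟩ := hnet s hs h2
    refine ⟨ε, hε, ?_⟩
    have h3 := h.add' hε' hs'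
    have h4 : s + ε + (t k + t (k + 1) + s) = t k + t (k + 1) + ε + (s + s) := by abel
    rw [h4, h.two, add_zero] at h3
    exact h3
  choose ε hε hε' using h1
  refine ⟨fun k => ∑ i ∈ Finset.range k, ε i, fun k => ?_, by simp, fun k => ?_⟩
  · induction k with
    | zero => simpa using hS0
    | succ k ih =>
      dsimp only at ih ⊢
      rw [Finset.sum_range_succ]
      exact hSE _ ih _ (hε k)
  · dsimp only
    rw [Finset.sum_range_succ]
    have h2 : t k + t (k + 1) + (∑ i ∈ Finset.range k, ε i + (∑ i ∈ Finset.range k, ε i + ε k)) =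
        t k + t (k + 1) + ε k + (∑ i ∈ Finset.range k, ε i + ∑ i ∈ Finset.range k, ε i) := by abel
    rw [h2, h.two, add_zero]
    exact hε' k

theorem sum_labels {t σ : ℕ → G} {a : ℕ}
    (hs : ∀ k, (t k + t (k + 1)) + (σ k + σ (k + 1)) ∈ B' a) (i : ℕ) :
    ∀ n, (t i + t (i + n)) + (σ i + σ (i + n)) ∈ B' (n * a) := by
  intro n
  induction n with
  | zero =>
    rw [add_zero, h.two, h.two, add_zero, Nat.zero_mul]
    exact h.zero'
  | succ n ih =>
    have h1 := h.add' ih (hs (i + n))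
    have h2 : t i + t (i + n) + (σ i + σ (i + n)) + (t (i + n) + t (i + n + 1) + (σ (i + n) + σ (i + n + 1))) =
        t i + t (i + (n + 1)) + (σ i + σ (i + (n + 1))) + ((t (i + n) + t (i + n)) + (σ (i + n) + σ (i + n))) := by
      rw [← add_assoc i n 1]
      abel
    rw [h2, h.two, h.two, add_zero, add_zero] at h1
    rw [Nat.succ_mul]
    exact h1

/-- (A5) the elements of `D'` reached by a chain of length `k` lie in at most `2 ^ m1` sheets -/
theorem sheets {R0 : ℕ} : ∃ S : Finset G, S.card ≤ 2 ^ m (R1 κ K2 R0) ∧ (0 : G) ∈ S ∧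
    ∀ e : ℕ → G, Chain B D R0 e → ∀ k, ∀ x ∈ D', e k + x ∈ B (R2 κ K2 R0 + R0) →
    ∃ σ ∈ S, x + σ ∈ B' ((k + 1) * (k1 + κ)) := by
  classical
  obtain ⟨S, hS, hS0, hlab⟩ := h.labels (R0 := R0)
  refine ⟨S, hS, hS0, fun e he k x hx hex => ?_⟩
  obtain ⟨t, ht0, htD, htB⟩ := h.track he
  let t' : ℕ → G := fun i => if i ≤ k then t i else x
  have h1 : ∀ i, t' i + t' (i + 1) ∈ B (2 * R2 κ K2 R0 + R0) := by
    intro i
    rcases Nat.lt_trichotomy i k with h2 | h2 | h2
    · have h3 : t' i = t i := if_pos h2.le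
      have h4 : t' (i + 1) = t (i + 1) := if_pos h2
      rw [h3, h4]
      have h5 := htB i
      rw [add_comm] at h5
      have h6 := h.tri (h.tri h5 (he.step i)) (htB (i + 1))
      exact h.mono (by omega) h6
    · have h3 : t' i = t i := if_pos h2.le
      have h4 : t' (i + 1) = x := if_neg (by omega)
      rw [h3, h4]
      have h5 := htB i
      rw [add_comm] at h5
      rw [← h2] at hex
      have h6 := h.tri h5 hex
      exact h.mono (by omega) h6
    · have h3 : t' i = x := if_neg (by omega)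
      have h4 : t' (i + 1) = x := if_neg (by omega)
      rw [h3, h4, h.two]
      exact h.mono (Nat.zero_le _) h.zero
  obtain ⟨σ, hσS, hσ0, hσ⟩ := hlab t' (by show (if 0 ≤ k then t 0 else x) = 0; rw [if_pos (Nat.zero_le k), ht0])
    (fun i => by
      show (if i ≤ k then t i else x) ∈ D'
      split_ifs
      · exact htD i
      · exact hx) h1
  refine ⟨σ (k + 1), hσS _, ?_⟩
  have h2 := h.sum_labels hσ 0 (k + 1)
  have h3 : t' 0 = 0 := by show (if 0 ≤ k then t 0 else x) = 0; rw [if_pos (Nat.zero_le k), ht0]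
  have h4 : t' (0 + (k + 1)) = x := if_neg (by omega)
  rw [h3, h4, hσ0, zero_add, zero_add, Nat.zero_add] at h2
  exact h2

/-- (A3) every point of a chain is close to a point of `D'` of linear `B'`-norm -/
theorem dense {R0 : ℕ} {e : ℕ → G} (he : Chain B D R0 e) (k : ℕ) :
    ∃ x ∈ D', e k + x ∈ B (RR κ K2 R0 m) ∧
      x ∈ B' (k * (k1 + κ) + 2 * (2 ^ m (R1 κ K2 R0) + 1) * κ) := by
  classical
  obtain ⟨S, hS, hS0, hlab⟩ := h.labels (R0 := R0)
  obtain ⟨t, ht0, htD, htB⟩ := h.track he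
  have hts : ∀ i, t i + t (i + 1) ∈ B (2 * R2 κ K2 R0 + R0) := by
    intro i
    have h5 := htB i
    rw [add_comm] at h5
    exact h.mono (by omega) (h.tri (h.tri h5 (he.step i)) (htB (i + 1)))
  obtain ⟨σ, hσS, hσ0, hσ⟩ := hlab t ht0 htD hts
  set X := 2 * κ + 2 * R2 κ K2 R0 + R0 with hX
  have h0 : ((Finset.Icc 0 k).image σ).card ≤ 2 ^ m (R1 κ K2 R0) := by
    refine (Finset.card_le_card ?_).trans hS
    intro a ha
    obtain ⟨b, _, rfl⟩ := Finset.mem_image.mp ha
    exact hσS b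
  obtain ⟨t', ht', g, hg, hg1, hg2⟩ := last_index σ k
    (fun i s => ∃ g ∈ D', t i + g ∈ B (s * X) ∧ g ∈ B' (i * (k1 + κ) + 2 * s * κ))
    (fun i s => ∃ g ∈ D', t i + g ∈ B (s * X + 2 * κ) ∧ g ∈ B' (i * (k1 + κ) + 2 * (s + 1) * κ))
    (by
      rintro i j s hij hjk hc ⟨g, hg, hg1, hg2⟩
      obtain ⟨u, hu, hu'⟩ := h.Dadd (t i) (htD i) (t j) (htD j)
      obtain ⟨w, hw, hw'⟩ := h.Dadd g hg u hu
      have h1 := h.sum_labels hσ i (j - i)
      have h2 : i + (j - i) = j := by omega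
      rw [h2, hc, h.two, add_zero] at h1
      refine ⟨w, hw, ?_, ?_⟩
      · have h3 := h.add (h.add hg1 (h.le _ hu')) (h.le _ hw')
        have h4 : t i + g + (t i + t j + u) + (g + u + w) = t j + w + ((t i + t i) + (g + g) + (u + u)) := by abel
        rw [h4] at h3
        simp only [h.two, add_zero] at h3
        exact h.mono (by omega) h3
      · have h3 := h.add' (h.add' (h.add' hg2 h1) hu') hw'
        have h4 : g + (t i + t j) + (t i + t j + u) + (g + u + w) =
            w + ((t i + t i) + (t j + t j) + (g + g) + (u + u)) := by abel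
        rw [h4] at h3
        simp only [h.two, add_zero] at h3
        refine h.mono' ?_ h3
        have h5 : i * (k1 + κ) + (j - i) * (k1 + κ) = j * (k1 + κ) := by
          rw [← Nat.add_mul, h2]
        have h6 : 2 * (s + 1) * κ = 2 * s * κ + κ + κ := by ring
        omega)
    (by
      rintro j s hjk ⟨g, hg, hg1, hg2⟩
      refine ⟨g, hg, ?_, ?_⟩
      · have h1 := hts j
        rw [add_comm (t j)] at h1
        have h2 := h.tri h1 hg1
        refine h.mono ?_ h2
        have h7 : (s + 1) * X = s * X + X := by ring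
        omega
      · refine h.mono' ?_ hg2
        have h5 := Nat.succ_mul j (k1 + κ)
        rw [Nat.succ_eq_add_one] at h5
        omega)
    (2 ^ m (R1 κ K2 R0)) 0 0 (Nat.zero_le k) h0
    ⟨0, h.D0, by rw [ht0, add_zero, Nat.zero_mul]; exact h.zero,
      h.mono' (Nat.zero_le _) h.zero'⟩
  have ht2 : t' ≤ 2 ^ m (R1 κ K2 R0) := by omega
  refine ⟨g, hg, ?_, h.mono' ?_ hg2⟩
  · have h1 := h.tri (htB k) hg1
    refine h.mono ?_ h1
    rw [RR, ← hX]
    have h2 := Nat.mul_le_mul_right X ht2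
    omega
  · have h2 : 2 * (t' + 1) * κ ≤ 2 * (2 ^ m (R1 κ K2 R0) + 1) * κ :=
      Nat.mul_le_mul_right κ (Nat.mul_le_mul_left 2 (Nat.succ_le_succ ht2))
    omega

/-- uniqueness of the approximation under a gap -/
theorem near_unique {s0 C Cp : ℕ} (hg : Gap B B' D' s0 C Cp) {x y : G} (hx : x ∈ D') (hy : y ∈ D')
    {r P Q : ℕ} (hxy : x + y ∈ B r) (hr : r + κ ≤ s0) (hxP : x ∈ B' P) (hyQ : y ∈ B' Q)
    (hC : P + Q + κ ≤ Cp) : x + y ∈ B' (C + κ) := by
  obtain ⟨d, hd, hd'⟩ := h.Dadd x hx y hy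
  have h1 : d ∈ B s0 := by
    have h3 := h.add hxy (h.le _ hd')
    have h4 : x + y + (x + y + d) = d + ((x + x) + (y + y)) := by abel
    rw [h4, h.two, h.two, add_zero, add_zero] at h3
    exact h.mono hr h3
  have h2 : d ∈ B' Cp := by
    have h3 := h.add' (h.add' hxP hyQ) hd'
    have h4 : x + y + (x + y + d) = d + ((x + x) + (y + y)) := by abel
    rw [h4, h.two, h.two, add_zero, add_zero] at h3
    exact h.mono' hC h3
  have h3 := h.add' (hg d hd h1 h2) hd'
  have h4 : d + (x + y + d) = x + y + (d + d) := by abel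
  rw [h4, h.two, add_zero] at h3
  exact h3

/-- (A4) linear comparison -/
theorem compare {R0 s0 C Cp : ℕ} (hg : Gap B B' D' s0 C Cp) {e : ℕ → G} (he : Chain B D R0 e) (k : ℕ)
    {x : G} (hx : x ∈ D') {r P : ℕ} (hex : e k + x ∈ B r) (hr : RR κ K2 R0 m + r + κ ≤ s0) (hxP : x ∈ B' P)
    (hC : P + (k * (k1 + κ) + 2 * (2 ^ m (R1 κ K2 R0) + 1) * κ) + κ ≤ Cp) :
    x ∈ B' (k * (k1 + κ) + 2 * (2 ^ m (R1 κ K2 R0) + 1) * κ + (C + κ)) := by
  obtain ⟨y, hy, hy1, hy2⟩ := h.dense he k
  have h1 : x + y ∈ B (r + RR κ K2 R0 m) := by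
    rw [add_comm] at hex
    exact h.tri hex hy1
  have h2 := h.near_unique hg hx hy h1 (by omega) hxP hy2 hC
  have h3 := h.add' hy2 h2
  have h4 : y + (x + y) = x + (y + y) := by abel
  rw [h4, h.two, add_zero] at h3
  exact h3

end Pair

/-- GAP CHOICE: one scale without errors for most members of a family -/
theorem exists_gap {ι : Type*} (I : Finset ι) (B : ℕ → Set G) (B' : ι → ℕ → Set G) (D' : ι → Set G)
    (two : ∀ g : G, g + g = 0)
    (mono' : ∀ i, ∀ {r s : ℕ}, r ≤ s → B' i r ⊆ B' i s)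
    (add' : ∀ i, ∀ {r s : ℕ} {a b : G}, a ∈ B' i r → b ∈ B' i s → a + b ∈ B' i (r + s))
    {s0 k1 M : ℕ}
    (count : ∀ i ∈ I, ∀ (E : Finset G), (∀ e ∈ E, e ∈ D' i ∧ e ∈ B s0) →
      (∀ e ∈ E, ∀ e' ∈ E, e ≠ e' → e + e' ∉ B' i k1) → E.card ≤ M)
    (a b : ℕ → ℕ) (hab : ∀ j, b j + k1 ≤ a (j + 1)) (hba : ∀ j, a j ≤ b j) (J : ℕ) (hJ : 0 < J) :
    ∃ j < J, ∃ Bad : Finset ι, Bad ⊆ I ∧ J * Bad.card ≤ M * I.card ∧
      ∀ i ∈ I, i ∉ Bad → Gap B (B' i) (D' i) s0 (a j) (b j) := by
  classical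
  have hmono : ∀ j j', j < j' → b j + k1 ≤ a j' := by
    intro j j' hjj
    induction j' with
    | zero => omega
    | succ j' ih =>
      rcases Nat.lt_or_ge j j' with h1 | h1
      · have h2 := ih h1
        have h3 := hab j'
        have h4 := hba j'
        omega
      · have h2 : j = j' := by omega
        rw [h2]
        exact hab j'
  let bad : ℕ → Finset ι := fun j => I.filter fun i => ¬ Gap B (B' i) (D' i) s0 (a j) (b j)
  have h1 : ∀ i ∈ I, ((Finset.range J).filter fun j => i ∈ bad j).card ≤ M := by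
    intro i hi
    have h2 : ∀ j, ∃ e : G, i ∈ bad j → e ∈ D' i ∧ e ∈ B s0 ∧ e ∈ B' i (b j) ∧ e ∉ B' i (a j) := by
      intro j
      by_cases h3 : i ∈ bad j
      · have h4 := (Finset.mem_filter.mp h3).2
        rw [Gap] at h4
        push Not at h4
        obtain ⟨e, h5, h6, h7, h8⟩ := h4
        exact ⟨e, fun _ => ⟨h5, h6, h7, h8⟩⟩
      · exact ⟨0, fun h4 => absurd h4 h3⟩
    choose e he using h2
    have hsep : ∀ j j', j < j' → i ∈ bad j → i ∈ bad j' → e j + e j' ∉ B' i k1 := by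
      intro j j' hjj hj hj' hcon
      have h3 := add' i (he j hj).2.2.1 hcon
      have h4 : e j + (e j + e j') = e j' + (e j + e j) := by abel
      rw [h4, two, add_zero] at h3
      exact (he j' hj').2.2.2 (mono' i (hmono j j' hjj) h3)
    have hinj : ∀ j ∈ ((Finset.range J).filter fun j => i ∈ bad j),
        ∀ j' ∈ ((Finset.range J).filter fun j => i ∈ bad j), e j = e j' → j = j' := by
      intro j hj j' hj' hee
      rw [Finset.mem_filter] at hj hj'
      rcases Nat.lt_trichotomy j j' with h3 | h3 | h3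
      · exfalso
        have h4 := (he j hj.2).2.2.1
        rw [hee] at h4
        exact (he j' hj'.2).2.2.2 (mono' i (by have := hmono j j' h3; omega) h4)
      · exact h3
      · exfalso
        have h4 := (he j' hj'.2).2.2.1
        rw [← hee] at h4
        exact (he j hj.2).2.2.2 (mono' i (by have := hmono j' j h3; omega) h4)
    have h3 := count i hi (((Finset.range J).filter fun j => i ∈ bad j).image e)
      (fun x hx => by
        obtain ⟨j, hj, rfl⟩ := Finset.mem_image.mp hx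
        have h4 := he j (Finset.mem_filter.mp hj).2
        exact ⟨h4.1, h4.2.1⟩)
      (fun x hx y hy hne => by
        obtain ⟨j, hj, rfl⟩ := Finset.mem_image.mp hx
        obtain ⟨j', hj', rfl⟩ := Finset.mem_image.mp hy
        rw [Finset.mem_filter] at hj hj'
        rcases Nat.lt_trichotomy j j' with h4 | h4 | h4
        · exact hsep j j' h4 hj.2 hj'.2
        · exact absurd (congrArg e h4) hne
        · rw [add_comm]
          exact hsep j' j h4 hj'.2 hj.2)
    rwa [Finset.card_image_of_injOn (fun j hj j' hj' => hinj j hj j' hj')] at h3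
  have h2 : ∑ j ∈ Finset.range J, (bad j).card ≤ M * I.card := by
    have h3 : ∑ j ∈ Finset.range J, (bad j).card =
        ∑ i ∈ I, ((Finset.range J).filter fun j => i ∈ bad j).card := by
      have h4 : ∀ j ∈ Finset.range J, (bad j).card = ∑ i ∈ I, if i ∈ bad j then 1 else 0 := by
        intro j _
        rw [Finset.sum_ite_mem, Finset.sum_const, smul_eq_mul, mul_one,
          Finset.inter_eq_right.mpr (Finset.filter_subset _ _)]
      rw [Finset.sum_congr rfl h4, Finset.sum_comm]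
      refine Finset.sum_congr rfl fun i _ => ?_
      rw [Finset.card_filter]
    rw [h3]
    calc ∑ i ∈ I, ((Finset.range J).filter fun j => i ∈ bad j).card ≤ ∑ _i ∈ I, M :=
          Finset.sum_le_sum h1
      _ = M * I.card := by rw [Finset.sum_const, smul_eq_mul, mul_comm]
  have h3 : ∃ j ∈ Finset.range J, J * (bad j).card ≤ M * I.card := by
    by_contra hcon
    push Not at hcon
    have hne : (Finset.range J).Nonempty := ⟨0, Finset.mem_range.mpr hJ⟩
    have h4 : ∑ _j ∈ Finset.range J, M * I.card < ∑ j ∈ Finset.range J, J * (bad j).card :=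
      Finset.sum_lt_sum_of_nonempty hne hcon
    have h6 : ∑ j ∈ Finset.range J, J * (bad j).card = J * ∑ j ∈ Finset.range J, (bad j).card := by
      rw [Finset.mul_sum]
    rw [h6, Finset.sum_const, smul_eq_mul, Finset.card_range] at h4
    have h5 := Nat.mul_le_mul_left J h2
    omega
  obtain ⟨j, hj, hj2⟩ := h3
  refine ⟨j, Finset.mem_range.mp hj, bad j, Finset.filter_subset _ _, hj2, fun i hi hib => ?_⟩
  by_contra h4
  exact hib (Finset.mem_filter.mpr ⟨hi, h4⟩)

end Pool.Agent.helper16.MF
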