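import Mathlib
import Pool.Agent.helper16.MF.Sub

set_option autoImplicit false

/-!
# MP_141f81, Section 7d: the gap choice over a finite set of rows

Every row `r` has finitely many structures (kinds `t : T`); there is one scale which is a gap for all the structures of
at least half of the rows.  `Maps`: the additive map of the free group of exponent two given by a partial map of the
letters, and its action on the balls.
-/

namespace Pool.Agent.helper16.MF

theorem good_rows {G T ρ : Type*} [AddCommGroup G] [Fintype T] (S : Finset ρ)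
    (B : ℕ → Set G) (B' : T → ρ → ℕ → Set G) (D' : T → ρ → Set G)
    (two : ∀ g : G, g + g = 0)
    (mono' : ∀ t r, ∀ {i j : ℕ}, i ≤ j → B' t r i ⊆ B' t r j)
    (add' : ∀ t r, ∀ {i j : ℕ} {a b : G}, a ∈ B' t r i → b ∈ B' t r j → a + b ∈ B' t r (i + j))
    {s0 k1 M : ℕ}
    (count : ∀ t, ∀ r ∈ S, ∀ (E : Finset G), (∀ e ∈ E, e ∈ D' t r ∧ e ∈ B s0) →
      (∀ e ∈ E, ∀ e' ∈ E, e ≠ e' → e + e' ∉ B' t r k1) → E.card ≤ M)
    (a b : ℕ → ℕ) (hab : ∀ j, b j + k1 ≤ a (j + 1)) (hba : ∀ j, a j ≤ b j) :
    ∃ j ≤ 2 * (M * Fintype.card T), ∃ A ⊆ S, S.card ≤ 2 * A.card ∧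
      ∀ r ∈ A, ∀ t, Gap B (B' t r) (D' t r) s0 (a j) (b j) := by
  classical
  obtain ⟨j, hj, Bad, hBad, hcard, hgap⟩ := exists_gap (ι := T × ρ) (Finset.univ ×ˢ S) B
    (fun i => B' i.1 i.2) (fun i => D' i.1 i.2) two (fun i => mono' i.1 i.2) (fun i => add' i.1 i.2)
    (s0 := s0) (k1 := k1) (M := M)
    (fun i hi => count i.1 i.2 (Finset.mem_product.mp hi).2) a b hab hba
    (2 * (M * Fintype.card T) + 1) (Nat.succ_pos _)
  refine ⟨j, by omega, S.filter fun r => ∀ t, (t, r) ∉ Bad, Finset.filter_subset _ _, ?_, ?_⟩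
  · have h1 : (S.filter fun r => ¬ ∀ t, (t, r) ∉ Bad).card ≤ Bad.card := by
      have h2 : (S.filter fun r => ¬ ∀ t, (t, r) ∉ Bad) ⊆ Bad.image Prod.snd := by
        intro r hr
        have h3 := (Finset.mem_filter.mp hr).2
        push Not at h3
        obtain ⟨t, ht⟩ := h3
        exact Finset.mem_image.mpr ⟨(t, r), ht, rfl⟩
      exact (Finset.card_le_card h2).trans Finset.card_image_le
    have h2 := Finset.card_filter_add_card_filter_not (s := S) (fun r => ∀ t, (t, r) ∉ Bad)
    rw [Finset.card_product, Finset.card_univ, ← mul_assoc M] at hcard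
    have h3 : 2 * Bad.card ≤ S.card := by
      generalize M * Fintype.card T = m at hcard
      by_contra hcon
      push Not at hcon
      have h5 : (2 * m + 1) * Bad.card = m * (2 * Bad.card) + Bad.card := by ring
      have h6 : m * S.card ≤ m * (2 * Bad.card) := Nat.mul_le_mul_left m hcon.le
      rw [h5] at hcard
      omega
    omega
  · intro r hr t
    rw [Finset.mem_filter] at hr
    exact hgap (t, r) (Finset.mem_product.mpr ⟨Finset.mem_univ _, hr.1⟩) (hr.2 t)

/-- the additive map of the free groups of exponent two given by a partial map of the letters -/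
noncomputable def lmap {X Y : Type*} (f : X → Option Y) : (X →₀ ZMod 2) →+ (Y →₀ ZMod 2) :=
  Finsupp.liftAddHom fun x => match f x with
    | some y => Finsupp.singleAddHom y
    | none => 0

theorem lmap_single {X Y : Type*} (f : X → Option Y) {x : X} {y : Y} (h : f x = some y) :
    lmap f (Finsupp.single x 1) = Finsupp.single y 1 := by
  rw [lmap, Finsupp.liftAddHom_apply_single, h]
  rfl

theorem lmap_none {X Y : Type*} (f : X → Option Y) {x : X} (h : f x = none) :
    lmap f (Finsupp.single x 1) = 0 := by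
  rw [lmap, Finsupp.liftAddHom_apply_single, h]
  rfl

end Pool.Agent.helper16.MF
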