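import Mathlib

set_option autoImplicit false

/-!
# MP_141f81, Section 7.1: exhaustion by good subfamilies and joint selection

`exhaust`: if every subfamily of size at least `e` contains a good subfamily of size at least `k`, then all but fewer
than `e` members are covered by at most `m` disjoint good subfamilies (`|R| ≤ m k`).

`joint`: finitely many slots `s`, each row `η` has a key `key s η` in every slot; over every key the rows are covered by
`m` classes.  One class can be chosen over every key of every slot such that a proportion `1 / m ^ #slots` of the rows lie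
in the chosen class for all slots at once.
-/

namespace Pool.Agent.helper16.MF

/-- exhaustion -/
theorem exhaust {α : Type*} [DecidableEq α] (Good : Finset α → Prop) (e k : ℕ) :
    ∀ (m : ℕ) (R : Finset α), R.card ≤ m * k →
    (∀ R' ⊆ R, e ≤ R'.card → ∃ S ⊆ R', Good S ∧ k ≤ S.card) →
    ∃ Q : Fin m → Finset α, (∀ i, Q i ⊆ R) ∧ (∀ i, (Q i).Nonempty → Good (Q i)) ∧
      (∀ i j, i ≠ j → Disjoint (Q i) (Q j)) ∧ ((R.filter fun x => ∀ i, x ∉ Q i).card < e ∨ e = 0) := by
  intro m
  induction m with
  | zero =>
    intro R hR _
    have h1 : R = ∅ := Finset.card_eq_zero.mp (by omega)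
    subst h1
    refine ⟨fun _ => ∅, fun i => i.elim0, fun i => i.elim0, fun i => i.elim0, ?_⟩
    simp only [Finset.filter_empty, Finset.card_empty]
    omega
  | succ m ih =>
    intro R hR hgood
    rcases Nat.lt_or_ge R.card e with h1 | h1
    · refine ⟨fun _ => ∅, fun i => Finset.empty_subset _, fun i hi => absurd hi (by simp), fun i j _ => by simp, ?_⟩
      left
      exact lt_of_le_of_lt (Finset.card_filter_le _ _) h1
    · obtain ⟨S, hSR, hS, hkS⟩ := hgood R (Finset.Subset.refl R) h1
      have h2 : (R \ S).card ≤ m * k := by
        rw [Finset.card_sdiff_of_subset hSR]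
        rw [Nat.add_one_mul] at hR
        omega
      obtain ⟨Q, hQR, hQG, hQD, hQe⟩ := ih (R \ S) h2
        (fun R' hR' he => hgood R' (hR'.trans Finset.sdiff_subset) he)
      refine ⟨Fin.cons S Q, fun i => ?_, fun i => ?_, fun i j => ?_, ?_⟩
      · refine Fin.cases ?_ (fun i => ?_) i
        · simpa using hSR
        · simpa using (hQR i).trans Finset.sdiff_subset
      · refine Fin.cases ?_ (fun i => ?_) i
        · intro _
          simpa using hS
        · intro hi
          simp only [Fin.cons_succ] at hi ⊢
          exact hQG i hi
      · have hSQ : ∀ i, Disjoint S (Q i) := fun i =>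
          Finset.disjoint_of_subset_right (hQR i) Finset.disjoint_sdiff
        refine Fin.cases ?_ (fun i => ?_) i
        · refine Fin.cases ?_ (fun j => ?_) j
          · intro h; exact absurd rfl h
          · intro _
            simpa using hSQ j
        · refine Fin.cases ?_ (fun j => ?_) j
          · intro _
            simpa using (hSQ i).symm
          · intro h
            simp only [Fin.cons_succ]
            exact hQD i j fun h3 => h (by rw [h3])
      · rcases hQe with h3 | h3
        · left
          refine lt_of_le_of_lt (Finset.card_le_card ?_) h3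
          intro x hx
          rw [Finset.mem_filter] at hx ⊢
          have h4 := hx.2 0
          rw [Fin.cons_zero] at h4
          refine ⟨Finset.mem_sdiff.mpr ⟨hx.1, h4⟩, fun i => ?_⟩
          have h5 := hx.2 i.succ
          rwa [Fin.cons_succ] at h5
        · right
          exact h3

/-- one slot of the joint selection -/
theorem select_one {α κ : Type*} (m : ℕ) (hm : 0 < m) (R : Finset α) (key : α → κ)
    (cls : α → Fin m) :
    ∃ c : κ → Fin m, R.card ≤ m * (R.filter fun x => c (key x) = cls x).card := by
  classical
  have h1 : ∀ k : κ, ∃ i : Fin m, (R.filter fun x => key x = k).card ≤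
      m * (R.filter fun x => key x = k ∧ i = cls x).card := by
    intro k
    by_contra hcon
    push Not at hcon
    have h2 : (R.filter fun x => key x = k).card =
        ∑ i : Fin m, (R.filter fun x => key x = k ∧ i = cls x).card := by
      rw [Finset.card_eq_sum_card_fiberwise (f := cls) (t := Finset.univ) (fun x _ => Finset.mem_univ _)]
      refine Finset.sum_congr rfl fun i _ => ?_
      congr 1
      ext x
      simp only [Finset.mem_filter]
      constructor
      · rintro ⟨⟨h3, h4⟩, h5⟩
        exact ⟨h3, h4, h5.symm⟩
      · rintro ⟨h3, h4, h5⟩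
        exact ⟨⟨h3, h4⟩, h5.symm⟩
    have : Nonempty (Fin m) := ⟨⟨0, hm⟩⟩
    have h3 : ∑ i : Fin m, m * (R.filter fun x => key x = k ∧ i = cls x).card <
        ∑ _i : Fin m, (R.filter fun x => key x = k).card :=
      Finset.sum_lt_sum_of_nonempty Finset.univ_nonempty fun i _ => hcon i
    rw [← Finset.mul_sum, ← h2, Finset.sum_const, Finset.card_univ, Fintype.card_fin, smul_eq_mul] at h3
    exact lt_irrefl _ h3
  choose c hc using h1
  refine ⟨c, ?_⟩
  have h4 : R.card = ∑ k ∈ R.image key, (R.filter fun x => key x = k).card :=
    Finset.card_eq_sum_card_image key R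
  have h5 : (R.filter fun x => c (key x) = cls x).card =
      ∑ k ∈ R.image key, (R.filter fun x => key x = k ∧ c k = cls x).card := by
    rw [Finset.card_eq_sum_card_fiberwise (f := key) (t := R.image key)
      (fun x hx => Finset.mem_coe.mpr (Finset.mem_image_of_mem key (Finset.mem_filter.mp hx).1))]
    refine Finset.sum_congr rfl fun k _ => ?_
    congr 1
    ext x
    simp only [Finset.mem_filter]
    constructor
    · rintro ⟨⟨h6, h7⟩, h8⟩
      exact ⟨h6, h8, h8 ▸ h7⟩
    · rintro ⟨h6, h7, h8⟩
      exact ⟨⟨h6, h7.symm ▸ h8⟩, h7⟩
  rw [h4, h5, Finset.mul_sum]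
  exact Finset.sum_le_sum fun k _ => hc k

/-- joint selection over finitely many slots -/
theorem joint {α S : Type*} [Fintype S] {κ : S → Type*} (m : ℕ) (hm : 0 < m) (R : Finset α)
    (key : ∀ s, α → κ s) (cls : ∀ _s : S, α → Fin m) :
    ∃ c : ∀ s, κ s → Fin m,
      R.card ≤ m ^ Fintype.card S * (R.filter fun x => ∀ s, c s (key s x) = cls s x).card := by
  classical
  have key2 : ∀ T : Finset S, ∃ c : ∀ s, κ s → Fin m,
      R.card ≤ m ^ T.card * (R.filter fun x => ∀ s ∈ T, c s (key s x) = cls s x).card := by
    intro T
    induction T using Finset.induction_on with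
    | empty => exact ⟨fun _ _ => ⟨0, hm⟩, by simp⟩
    | insert s T hs ih =>
      obtain ⟨c, hc⟩ := ih
      obtain ⟨c', hc'⟩ := select_one m hm (R.filter fun x => ∀ s ∈ T, c s (key s x) = cls s x) (key s) (cls s)
      refine ⟨Function.update c s c', ?_⟩
      have h1 : (R.filter fun x => ∀ s' ∈ insert s T, Function.update c s c' s' (key s' x) = cls s' x) =
          ((R.filter fun x => ∀ s ∈ T, c s (key s x) = cls s x).filter fun x => c' (key s x) = cls s x) := by
        rw [Finset.filter_filter]
        refine Finset.filter_congr fun x _ => ?_
        constructor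
        · intro h2
          refine ⟨fun s' hs' => ?_, ?_⟩
          · have h3 := h2 s' (Finset.mem_insert_of_mem hs')
            have hne : s' ≠ s := by
              rintro rfl
              exact hs hs'
            rwa [Function.update_of_ne hne] at h3
          · have h3 := h2 s (Finset.mem_insert_self s T)
            rwa [Function.update_self] at h3
        · rintro ⟨h2, h3⟩ s' hs'
          rcases Finset.mem_insert.mp hs' with h4 | h4
          · subst h4
            rwa [Function.update_self]
          · have hne : s' ≠ s := by
              rintro rfl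
              exact hs h4
            rw [Function.update_of_ne hne]
            exact h2 s' h4
      rw [h1, Finset.card_insert_of_notMem hs, pow_succ, mul_assoc]
      exact hc.trans (Nat.mul_le_mul_left _ hc')
  obtain ⟨c, hc⟩ := key2 Finset.univ
  refine ⟨c, ?_⟩
  simpa using hc

end Pool.Agent.helper16.MF
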