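import Pool.Agent.helper42.MF.Fields
import Pool.Agent.helper16.MF.S7In
import Pool.Agent.helper16.MF.Good

set_option autoImplicit false

/-!
# MP_141f81, Section 7e: the pairs of the slots

`Full P L` is the set of the even words of length at most `L` in the letters of `P`.  `slot_pair`: `Full P L0` is a
coarse set for the norm of the slot, with the constants `κ2`, `k12`, `K22`, `m2`.
-/

namespace Pool.Agent.helper16.MF

open Pool.Agent.helper35.MF Pool.Agent.helper42.MF Pool.Agent.helper71.MF7b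

section

variable {X : Type}

/-- the even words of length at most `L` in the letters of `P` -/
def Full (P : Finset X) (L : ℕ) : Set (X →₀ ZMod 2) :=
  {g | ∃ l : List X, l.length ≤ L ∧ Even l.length ∧ (∀ x ∈ l, x ∈ P) ∧ wd l = g}

theorem wd_nil : wd ([] : List X) = 0 := rfl

theorem wd_cons (x : X) (l : List X) : wd (x :: l) = sy x + wd l := by
  rw [wd, List.map_cons, List.sum_cons]

theorem Full.mono {P P' : Finset X} (h : P ⊆ P') {L : ℕ} : Full P L ⊆ Full P' L := by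
  rintro g ⟨l, h1, h2, h3, h4⟩
  exact ⟨l, h1, h2, fun x hx => h (h3 x hx), h4⟩

theorem Full.zero (P : Finset X) (L : ℕ) : (0 : X →₀ ZMod 2) ∈ Full P L :=
  ⟨[], by simp, by simp, by simp, wd_nil⟩

theorem Full.pair {P : Finset X} {L : ℕ} (hL : 2 ≤ L) {p q : X} (hp : p ∈ P) (hq : q ∈ P) :
    sy p + sy q ∈ Full P L :=
  ⟨[p, q], by simpa using hL, by simp, by simp [hp, hq], by rw [wd_cons, wd_cons, wd_nil, add_zero]⟩

theorem tri {T : Set (X →₀ ZMod 2)} {r s : ℕ} {a b c : X →₀ ZMod 2} (h1 : a + b ∈ Ball T r)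
    (h2 : b + c ∈ Ball T s) : a + c ∈ Ball T (r + s) := by
  have h3 := ball_add h1 h2
  have h4 : a + b + (b + c) = a + c := by
    rw [add_assoc, ← add_assoc b b c, two_eq, zero_add]
  rwa [h4] at h3

/-- even words are near `Ds` -/
theorem near_half {T T' : Set (X →₀ ZMod 2)} {D Ds : Set (X →₀ ZMod 2)} {P : Finset X} {κ k1 K2 : ℕ}
    {m : ℕ → ℕ} (h : Pair (Ball T) (Ball T') D Ds κ k1 K2 m)
    (hpq : ∀ p ∈ P, ∀ q ∈ P, sy p + sy q ∈ Ds) :
    ∀ (j : ℕ) (l : List X), l.length = 2 * j → (∀ x ∈ l, x ∈ P) → ∃ d ∈ Ds, wd l + d ∈ Ball T' (j * κ) := by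
  intro j
  induction j with
  | zero =>
    intro l hl _
    have h1 : l = [] := List.length_eq_zero_iff.mp (by omega)
    subst h1
    refine ⟨0, h.D0, ?_⟩
    rw [wd_nil, add_zero]
    exact Ball.zero _ _
  | succ j ih =>
    intro l hl hP
    match l, hl, hP with
    | x :: y :: l, hl, hP =>
      obtain ⟨d', hd', hd1⟩ := ih l (by simpa using by rw [List.length_cons, List.length_cons] at hl; omega)
        (fun z hz => hP z (List.mem_cons_of_mem _ (List.mem_cons_of_mem _ hz)))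
      have hx : x ∈ P := hP x List.mem_cons_self
      have hy : y ∈ P := hP y (List.mem_cons_of_mem _ List.mem_cons_self)
      obtain ⟨d, hd, hd2⟩ := h.Dadd _ (hpq x hx y hy) d' hd'
      refine ⟨d, hd, ?_⟩
      have h1 := ball_add hd1 hd2
      have h2 : wd l + d' + (sy x + sy y + d' + d) = wd (x :: y :: l) + d + (d' + d') := by
        rw [wd_cons, wd_cons]
        abel
      rw [h2, two_eq, add_zero] at h1
      have h3 : (j + 1) * κ = j * κ + κ := Nat.succ_mul j κ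
      rw [h3]
      exact h1

theorem near_full {T T' : Set (X →₀ ZMod 2)} {D Ds : Set (X →₀ ZMod 2)} {P : Finset X} {κ k1 K2 L : ℕ}
    {m : ℕ → ℕ} (h : Pair (Ball T) (Ball T') D Ds κ k1 K2 m)
    (hpq : ∀ p ∈ P, ∀ q ∈ P, sy p + sy q ∈ Ds) {g : X →₀ ZMod 2} (hg : g ∈ Full P L) :
    ∃ d ∈ Ds, ∃ j, 2 * j ≤ L ∧ g + d ∈ Ball T' (j * κ) := by
  obtain ⟨l, h1, ⟨j, h2⟩, h3, rfl⟩ := hg
  obtain ⟨d, hd, hd'⟩ := near_half h hpq j l (by omega) h3
  exact ⟨d, hd, j, by omega, hd'⟩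

/-- the fat pair -/
theorem pair_full {T T' : Set (X →₀ ZMod 2)} {D Ds : Set (X →₀ ZMod 2)} {P : Finset X} {κ k1 K2 L : ℕ}
    {m : ℕ → ℕ} (h : Pair (Ball T) (Ball T') D Ds κ k1 K2 m) (hDs : Ds ⊆ Full P L)
    (hpq : ∀ p ∈ P, ∀ q ∈ P, sy p + sy q ∈ Ds) :
    Pair (Ball T) (Ball T') D (Full P L) ((L + 1) * κ) (k1 + L * κ) K2 (fun s => m (s + L * κ)) where
  two := h.two
  mono := h.mono
  add := h.add
  zero' := h.zero'
  mono' := h.mono'
  add' := h.add'
  le := h.le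
  D0 := Full.zero P L
  Dadd a ha b hb := by
    obtain ⟨a', ha', i, hi, hai⟩ := near_full h hpq ha
    obtain ⟨b', hb', j, hj, hbj⟩ := near_full h hpq hb
    obtain ⟨d, hd, hd'⟩ := h.Dadd a' ha' b' hb'
    refine ⟨d, hDs hd, ?_⟩
    have h1 := h.add' (h.add' hai hbj) hd'
    have h2 : a + a' + (b + b') + (a' + b' + d) = a + b + d + ((a' + a') + (b' + b')) := by abel
    rw [h2, h.two, h.two, add_zero, add_zero] at h1
    refine h.mono' ?_ h1
    have h3 : (i + j) * κ ≤ L * κ := Nat.mul_le_mul_right κ (by omega)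
    rw [Nat.add_mul] at h3
    rw [Nat.add_mul, Nat.one_mul]
    omega
  cover := by
    obtain ⟨F, hF, hcov⟩ := h.cover
    refine ⟨F, hF, fun e he => ?_⟩
    obtain ⟨f, hf, d, hd, hd'⟩ := hcov e he
    refine ⟨f, hf, d, hDs hd, h.mono ?_ hd'⟩
    rw [Nat.add_mul, Nat.one_mul]
    omega
  count s E hE hsep := by
    classical
    have hch : ∀ e : X →₀ ZMod 2, ∃ d, e ∈ Full P L → d ∈ Ds ∧ ∃ j, 2 * j ≤ L ∧ e + d ∈ Ball T' (j * κ) := by
      intro e
      by_cases he : e ∈ Full P L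
      · obtain ⟨d, hd, hj⟩ := near_full h hpq he
        exact ⟨d, fun _ => ⟨hd, hj⟩⟩
      · exact ⟨0, fun h0 => absurd h0 he⟩
    choose f hf using hch
    have hkey : ∀ e ∈ E, ∀ e' ∈ E, ∀ r, f e + f e' ∈ Ball T' r → e + e' ∈ Ball T' (r + L * κ) := by
      intro e he e' he' r hr
      obtain ⟨_, i, hi, hi'⟩ := hf e (hE e he).1
      obtain ⟨_, j, hj, hj'⟩ := hf e' (hE e' he').1
      have h1 := h.add' (h.add' hi' hj') hr
      have h2 : e + f e + (e' + f e') + (f e + f e') = e + e' + ((f e + f e) + (f e' + f e')) := by abel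
      rw [h2, h.two, h.two, add_zero, add_zero] at h1
      refine h.mono' ?_ h1
      have h3 : (i + j) * κ ≤ L * κ := Nat.mul_le_mul_right κ (by omega)
      rw [Nat.add_mul] at h3
      omega
    have hinj : ∀ e ∈ E, ∀ e' ∈ E, f e = f e' → e = e' := by
      intro e he e' he' hee
      by_contra hne
      refine hsep e he e' he' hne ?_
      have h1 := hkey e he e' he' 0 (by rw [hee, h.two]; exact h.zero')
      exact h.mono' (by omega) h1
    have h1 := h.count (s + L * κ) (E.image f) (fun x hx => by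
        obtain ⟨e, he, rfl⟩ := Finset.mem_image.mp hx
        obtain ⟨h2, i, hi, hi'⟩ := hf e (hE e he).1
        refine ⟨h2, ?_⟩
        have h3 := h.add (hE e he).2 (h.le _ hi')
        rw [← add_assoc, h.two, zero_add] at h3
        refine h.mono ?_ h3
        have h4 : i * κ ≤ L * κ := Nat.mul_le_mul_right κ (by omega)
        omega)
      (fun x hx y hy hne hxy => by
        obtain ⟨e, he, rfl⟩ := Finset.mem_image.mp hx
        obtain ⟨e', he', rfl⟩ := Finset.mem_image.mp hy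
        refine hsep e he e' he' (fun h5 => hne (by rw [h5])) ?_
        exact hkey e he e' he' _ hxy)
    rwa [Finset.card_image_of_injOn (fun e he e' he' => hinj e he e' he')] at h1

/-- words of letters of `D` are near `D` -/
theorem near_word {T D F : Set (X →₀ ZMod 2)} {κ l1 l0 : ℕ} (h : CoarseF T D F κ l1 l0) (l : List X)
    (hl : ∀ x ∈ l, sy x ∈ D) : ∃ y ∈ D, wd l + y ∈ Ball T (l.length * κ) := by
  induction l with
  | nil =>
    refine ⟨0, h.zero, ?_⟩
    rw [wd_nil, add_zero]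
    exact Ball.zero _ _
  | cons x l ih =>
    obtain ⟨y, hy, hy'⟩ := ih fun z hz => hl z (List.mem_cons_of_mem _ hz)
    obtain ⟨w, hw, hw'⟩ := h.add _ (hl x List.mem_cons_self) y hy
    refine ⟨w, hw, ?_⟩
    have h1 := ball_add hy' hw'
    have h2 : wd l + y + (sy x + y + w) = wd (x :: l) + w + (y + y) := by
      rw [wd_cons]
      abel
    rw [h2, two_eq, add_zero] at h1
    rw [List.length_cons, Nat.add_mul, Nat.one_mul]
    exact h1

theorem full_near {T D F : Set (X →₀ ZMod 2)} {κ l1 l0 L : ℕ} (h : CoarseF T D F κ l1 l0) {P : Finset X}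
    (hP : ∀ x ∈ P, sy x ∈ D) {g : X →₀ ZMod 2} (hg : g ∈ Full P L) : ∃ y ∈ D, g + y ∈ Ball T (L * κ) := by
  obtain ⟨l, h1, -, h3, rfl⟩ := hg
  obtain ⟨y, hy, hy'⟩ := near_word h l fun x hx => hP x (h3 x hx)
  exact ⟨y, hy, Ball.mono (Nat.mul_le_mul_right κ h1) hy'⟩

/-- the image of a word under a map of letters -/
theorem map_word {M : (X →₀ ZMod 2) →+ (X →₀ ZMod 2)} {P Q : Finset X}
    (hM : ∀ q ∈ P, ∃ q' ∈ Q, M (sy q) = sy q') (l : List X) (hl : ∀ x ∈ l, x ∈ P) :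
    ∃ l' : List X, l'.length = l.length ∧ (∀ x ∈ l', x ∈ Q) ∧ M (wd l) = wd l' := by
  induction l with
  | nil => exact ⟨[], rfl, by simp, by rw [wd_nil, map_zero]⟩
  | cons x l ih =>
    obtain ⟨l', h1, h2, h3⟩ := ih fun z hz => hl z (List.mem_cons_of_mem _ hz)
    obtain ⟨q', hq', hq⟩ := hM x (hl x List.mem_cons_self)
    refine ⟨q' :: l', by simp [h1], fun z hz => ?_, ?_⟩
    · rcases List.mem_cons.mp hz with rfl | hz
      · exact hq'
      · exact h2 z hz
    · rw [wd_cons, wd_cons, map_add, hq, h3]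

/-- a map on the balls -/
theorem map_ball {T T' : Set (X →₀ ZMod 2)} {M : (X →₀ ZMod 2) →+ (X →₀ ZMod 2)}
    (hM : ∀ t ∈ T', M t ∈ Ball T 1) (r : ℕ) : ∀ x ∈ Ball T' r, M x ∈ Ball T r := by
  rintro x ⟨l, h1, h2, rfl⟩
  have key : ∀ l : List (X →₀ ZMod 2), (∀ x ∈ l, x ∈ T') → M l.sum ∈ Ball T l.length := by
    intro l
    induction l with
    | nil => intro _; simpa using Ball.zero T 0
    | cons x l ih =>
      intro hl
      rw [List.sum_cons, map_add, List.length_cons, add_comm l.length 1]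
      exact ball_add (hM x (hl x List.mem_cons_self)) (ih fun y hy => hl y (List.mem_cons_of_mem x hy))
  exact Ball.mono h1 (key l h2)

end

/-! ## the constants -/

namespace C7

variable (k : C7)

/-- length of the words of the coarse sets of the slots -/
def L0 : ℕ := 2 + 4 * cF k.a k.b5 k.K5 k.C

def κ2 : ℕ := (k.L0 + 1) * (k.b3 + k.b5)

def k12 : ℕ := 4 * k.b3 + k.L0 * (k.b3 + k.b5)

def K22 : ℕ := k.Kd * k.a * k.C k.b3

def m2 (s : ℕ) : ℕ := cm k.a k.b3 k.b5 k.K3 k.K5 k.C (s + k.L0 * (k.b3 + k.b5))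

def κ6 : ℕ := k.L0 * k.κ

/-- chain step -/
def R0 : ℕ := (k.l1 + 6) * k.κ + 1 + k.κ6

end C7

section

variable {X : Type}

/-- the pair of a slot -/
theorem slot_pair {k : C7} {n : ℕ} (hn : 0 < n) {XS : Finset X} {T D : Set (X →₀ ZMod 2)}
    (cons : ∀ b, ∀ p ∈ XS, ∀ Q ⊆ XS, (∀ q ∈ Q, sy p + sy q ∈ Ball T b) → Q.card ≤ k.C b)
    (covD : ∀ W : Finset (X →₀ ZMod 2), (∀ w ∈ W, ∃ f ∈ D, ∃ p ∈ XS, w = f + sy p) →
      (∀ w ∈ W, ∀ w' ∈ W, w ≠ w' → w + w' ∉ Ball T k.b3) → W.card ≤ k.Kd * n)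
    {T' : Set (X →₀ ZMod 2)} {P : Finset X} (hs : Slot k n T T' P) (hP : P ⊆ XS) :
    Pair (Ball T) (Ball T') D (Full P k.L0) k.κ2 k.k12 k.K22 k.m2 := by
  obtain ⟨Ds, h0, hw, hpq, hp⟩ := exists_pair_ball hs.sub P D n k.a k.b3 k.b5 k.K3 k.K5 k.Kd k.C hn hs.big
    (fun b p hp Q hQ => cons b p (hP hp) Q (hQ.trans hP)) hs.cov3 hs.cov5
    (fun W hW => covD W fun w hw => by
      obtain ⟨f, hf, p, hp, h1⟩ := hW w hw
      exact ⟨f, hf, p, hP hp, h1⟩)
  exact pair_full hp (fun e he => hw e he) hpq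

/-- the slot of the squares -/
theorem slot_sq {k : C7} {n : ℕ} {T T1 Ts : Set (X →₀ ZMod 2)} {P1 Ps : Finset X}
    {φ : (X →₀ ZMod 2) →+ (X →₀ ZMod 2)} (h1 : Slot k n T T1 P1) (Tss : Ts ⊆ T) (φT : ∀ t ∈ T1, φ t ∈ Ts)
    (φP : ∀ q ∈ P1, ∃ q' ∈ Ps, φ (sy q) = sy q') (φPs : ∀ q' ∈ Ps, ∃ q ∈ P1, φ (sy q) = sy q')
    (φiso : ∀ (l : List X) (r : ℕ), (∀ q ∈ l, q ∈ P1) → φ (wd l) ∈ Ball Ts r → wd l ∈ Ball T1 r) :
    Slot k n T Ts Ps := by
  classical
  have hφB : ∀ r, ∀ x ∈ Ball T1 r, φ x ∈ Ball Ts r := fun r => map_ball (fun t ht => Ball.one (φT t ht)) r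
  have hcov : ∀ (j b K : ℕ), (∀ W : Finset (X →₀ ZMod 2),
      (∀ w ∈ W, ∃ l : List X, l.length = j ∧ (∀ x ∈ l, x ∈ P1) ∧ wd l = w) →
      (∀ w ∈ W, ∀ w' ∈ W, w ≠ w' → w + w' ∉ Ball T1 b) → W.card ≤ K * n) →
      ∀ W : Finset (X →₀ ZMod 2),
      (∀ w ∈ W, ∃ l : List X, l.length = j ∧ (∀ x ∈ l, x ∈ Ps) ∧ wd l = w) →
      (∀ w ∈ W, ∀ w' ∈ W, w ≠ w' → w + w' ∉ Ball Ts b) → W.card ≤ K * n := by
    intro j b K h W hW hsep
    have hback : ∀ l : List X, (∀ x ∈ l, x ∈ Ps) →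
        ∃ l' : List X, l'.length = l.length ∧ (∀ x ∈ l', x ∈ P1) ∧ φ (wd l') = wd l := by
      intro l
      induction l with
      | nil => exact fun _ => ⟨[], rfl, by simp, by rw [wd_nil, map_zero]⟩
      | cons x l ih =>
        intro hl
        obtain ⟨l', g1, g2, g3⟩ := ih fun z hz => hl z (List.mem_cons_of_mem _ hz)
        obtain ⟨q, hq, hq'⟩ := φPs x (hl x List.mem_cons_self)
        refine ⟨q :: l', by simp [g1], fun z hz => ?_, ?_⟩
        · rcases List.mem_cons.mp hz with rfl | hz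
          · exact hq
          · exact g2 z hz
        · rw [wd_cons, wd_cons, map_add, hq', g3]
    have hch : ∀ w : X →₀ ZMod 2, ∃ v, w ∈ W → φ v = w ∧
        ∃ l : List X, l.length = j ∧ (∀ x ∈ l, x ∈ P1) ∧ wd l = v := by
      intro w
      by_cases hw : w ∈ W
      · obtain ⟨l, g1, g2, rfl⟩ := hW w hw
        obtain ⟨l', g3, g4, g5⟩ := hback l g2
        exact ⟨wd l', fun _ => ⟨g5, l', by rw [g3, g1], g4, rfl⟩⟩
      · exact ⟨0, fun h0 => absurd h0 hw⟩
    choose f hf using hch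
    have hinj : ∀ w ∈ W, ∀ w' ∈ W, f w = f w' → w = w' := by
      intro w hw w' hw' hww
      rw [← (hf w hw).1, ← (hf w' hw').1, hww]
    have h2 := h (W.image f) (fun x hx => by
        obtain ⟨w, hw, rfl⟩ := Finset.mem_image.mp hx
        exact (hf w hw).2)
      (fun x hx y hy hne hxy => by
        obtain ⟨w, hw, rfl⟩ := Finset.mem_image.mp hx
        obtain ⟨w', hw', rfl⟩ := Finset.mem_image.mp hy
        have h3 := hφB _ _ hxy
        rw [map_add, (hf w hw).1, (hf w' hw').1] at h3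
        exact hsep w hw w' hw' (fun h5 => hne (by rw [h5])) h3)
    rwa [Finset.card_image_of_injOn (fun e he e' he' => hinj e he e' he')] at h2
  refine ⟨Tss, ?_, hcov 3 k.b3 k.K3 h1.cov3, hcov 5 k.b5 k.K5 h1.cov5⟩
  have hcard : P1.card ≤ Ps.card := by
    choose! g hg using φP
    refine Finset.card_le_card_of_injOn g (fun q hq => (hg q hq).1) ?_
    intro q hq q' hq' hqq
    rw [Finset.mem_coe] at hq hq'
    have h3 : φ (wd [q, q']) ∈ Ball Ts 0 := by
      have h4 : φ (wd [q, q']) = 0 := by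
        rw [wd_cons, wd_cons, wd_nil, add_zero, map_add, (hg q hq).2, (hg q' hq').2, hqq, two_eq]
      rw [h4]
      exact Ball.zero _ _
    have h5 := φiso [q, q'] 0 (by simp [hq, hq']) h3
    obtain ⟨l, h6, -, h7⟩ := h5
    have h8 : l = [] := List.length_eq_zero_iff.mp (by omega)
    subst h8
    rw [wd_cons, wd_cons, wd_nil, add_zero, List.sum_nil] at h7
    have h9 : sy q = sy q' := by
      have h10 : sy q + (sy q + sy q') = sy q' := by rw [← add_assoc, two_eq, zero_add]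
      rw [← h10, ← h7, add_zero]
    exact (Finsupp.single_left_inj one_ne_zero).mp h9
  exact h1.big.trans (Nat.mul_le_mul_right _ hcard)

end

end Pool.Agent.helper16.MF
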