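import Pool.Agent.helper16.MF.S7A
import Pool.Agent.MF8.Kill

set_option autoImplicit false

/-!
# MP_141f81, Sections 7 and 8: `K*` is bounded

`bounded7`: in every input `In7` the elements of `D` of finite area have area at most `L`, where `L` depends only on the
constants.  For every gap scale `C` the constants `c8 C` of Section 8 give `Lmax`, and the gap `(C, Cp]` is chosen
accordingly; one of finitely many scales works for at least half of the lines.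
-/

namespace Pool.Agent.helper16.MF

open Pool.Agent.helper35.MF Pool.Agent.helper42.MF Pool.Agent.helper71.MF7b
open Pool.Agent.MF

/-! ## the constants -/

namespace C7

variable (k : C7)

def RRk : ℕ := RR k.κ2 k.K22 k.R0 k.m2

def LBk (j : ℕ) : ℕ := LB k.κ2 k.k12 k.K22 k.R0 k.m2 j

def Λ (s : ℕ) : ℕ := HH s k.l0 k.l1

theorem Λ_mono : Monotone k.Λ := HH_mono k.l0 k.l1

theorem LBk_mono : Monotone k.LBk := LB_mono k.κ2 k.k12 k.K22 k.R0 k.m2

def C00 : ℕ := k.κ + k.e0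

/-- radius of the local counts -/
def s0 : ℕ := 2 * k.b3 + 9 * k.C00 + k.κ + k.κ6 + 3 * k.RRk + 3 * k.κ2

/-- number of sheets -/
def q : ℕ := 2 ^ k.m2 (R1 k.κ2 k.K22 k.R0)

/-- the upper end of the gap -/
def Cp (C Lm : ℕ) : ℕ :=
  C + 3 * k.LBk (k.Λ (3 * Lm + 2 * k.κ)) + 2 * ((k.Λ (2 * Lm + k.κ6) + 1) * (k.k12 + k.κ2)) +
    3 * k.LBk (k.Λ Lm) + k.LBk (k.Λ (k.LBk (k.Λ Lm) + k.κ6)) +
    k.LBk (k.Λ (2 * k.LBk (k.Λ Lm) + k.κ2 + k.κ6)) + k.LBk (k.Λ 0) + 6 * k.κ2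

/-- the constants of Section 8 at the scale `C` -/
noncomputable def c8 (C : ℕ) : S8.Const where
  C0 := k.C00
  C := 3 * (C + k.κ2) + k.L0 * k.e0 + k.κ6 + k.C00
  C0le := by omega
  R := (k.l1 + 6) * k.κ + 1
  β := fun r => k.M0 ^ HH r k.l0 k.l1
  F := fun s => 2 * (C + 2 * k.κ2) + k.LBk (k.Λ (s + 2 * k.κ)) + k.LBk (k.Λ (s + k.κ2 + k.κ6)) + 2 * k.RRk
  Λ := k.Λ
  E := fun s => k.LBk (k.Λ s) + k.κ6
  ρ := C + k.κ2 + k.RRk
  κ := k.b3
  B := k.C (2 * k.b3) + k.C (2 * (2 * k.b3 + 10 * k.C00))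
  q := k.q
  c := 1 / (2 * (k.c0 : ℝ) * (k.Kd : ℝ) ^ 2 + 1)
  cpos := by positivity
  Fmono := by
    intro s t hst
    have h1 := k.LBk_mono (k.Λ_mono (Nat.add_le_add_right hst (2 * k.κ)))
    have h2 := k.LBk_mono (k.Λ_mono (Nat.add_le_add_right (Nat.add_le_add_right hst k.κ2) k.κ6))
    simp only []
    omega
  Emono := by
    intro s t hst
    have h1 := k.LBk_mono (k.Λ_mono hst)
    simp only []
    omega
  Λpos := fun r => by
    show 0 < HH r k.l0 k.l1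
    unfold HH
    omega

end C7

section

variable {X : Type}

/-- the sub-structure of a slot -/
theorem slot_sub {k : C7} {n : ℕ} (hn : 0 < n) {XS : Finset X} {T D F : Set (X →₀ ZMod 2)}
    (coarse : CoarseF T D F k.κ k.l1 k.l0) (sym : ∀ p ∈ XS, sy p ∈ D)
    (cons : ∀ b, ∀ p ∈ XS, ∀ Q ⊆ XS, (∀ q ∈ Q, sy p + sy q ∈ Ball T b) → Q.card ≤ k.C b)
    (covD : ∀ W : Finset (X →₀ ZMod 2), (∀ w ∈ W, ∃ f ∈ D, ∃ p ∈ XS, w = f + sy p) →
      (∀ w ∈ W, ∀ w' ∈ W, w ≠ w' → w + w' ∉ Ball T k.b3) → W.card ≤ k.Kd * n)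
    {T' : Set (X →₀ ZMod 2)} {P : Finset X} (hs : Slot k n T T' P) (hP : P ⊆ XS)
    {M : (X →₀ ZMod 2) →+ (X →₀ ZMod 2)} (hM : ∀ t ∈ T', M t ∈ Ball T 1)
    (hMl : ∀ q ∈ P, ∃ q' ∈ XS, M (sy q) = sy q') {C Cp : ℕ}
    (hg : Gap (Ball T) (Ball T') (Full P k.L0) k.s0 C Cp) :
    SubM (Ball T) D k.κ2 k.k12 k.K22 k.m2 k.s0 C Cp k.κ6 (Ball T') (Full P k.L0) M where
  pair := slot_pair hn cons covD hs hP
  gap := hg
  hM := fun r => map_ball hM r
  nearD := fun x hx => full_near coarse (fun x hx => sym x (hP hx)) hx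
  MD := by
    rintro x ⟨l, h1, -, h3, rfl⟩
    obtain ⟨l', h4, h5, h6⟩ := map_word hMl l h3
    obtain ⟨y, hy, hy'⟩ := near_word coarse l' fun x hx => sym x (h5 x hx)
    rw [h6]
    refine ⟨y, hy, Ball.mono (Nat.mul_le_mul_right _ ?_) hy'⟩
    omega

/-- a net of the words `f + sy p` -/
theorem net7 {k : C7} {n : ℕ} {XS : Finset X} {T D : Set (X →₀ ZMod 2)}
    (covD : ∀ W : Finset (X →₀ ZMod 2), (∀ w ∈ W, ∃ f ∈ D, ∃ p ∈ XS, w = f + sy p) →
      (∀ w ∈ W, ∀ w' ∈ W, w ≠ w' → w + w' ∉ Ball T k.b3) → W.card ≤ k.Kd * n) :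
    ∃ D1 : Finset (X →₀ ZMod 2), D1.card ≤ k.Kd * n ∧ ∀ p ∈ XS, ∀ e ∈ D, ∃ d ∈ D1,
      sy p + e + d ∈ Ball T k.b3 := by
  obtain ⟨F, hF, -, -, hF3⟩ := max_sep {w : X →₀ ZMod 2 | ∃ f ∈ D, ∃ p ∈ XS, w = f + sy p}
    (fun x y => x + y ∈ Ball T k.b3) (fun x y hxy => by rwa [add_comm]) (k.Kd * n)
    (fun W hW hsep => covD W hW hsep)
  refine ⟨F, hF, fun p hp e he => ?_⟩
  obtain ⟨f, hf, hf'⟩ := hF3 (e + sy p) ⟨e, he, p, hp, rfl⟩
  refine ⟨f, hf, ?_⟩
  rw [add_comm (sy p)]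
  rcases hf' with h1 | h1
  · rw [h1, two_eq]
    exact Ball.zero _ _
  · exact h1

/-- bounded geometry of the letters -/
theorem ball7 {k : C7} {XS : Finset X} {T : Set (X →₀ ZMod 2)}
    (cons : ∀ b, ∀ p ∈ XS, ∀ Q ⊆ XS, (∀ q ∈ Q, sy p + sy q ∈ Ball T b) → Q.card ≤ k.C b)
    (g : X →₀ ZMod 2) (r : ℕ) (S : Finset XS) (hS : ∀ x ∈ S, sy x.1 + g ∈ Ball T r) :
    S.card ≤ k.C (2 * r) := by
  classical
  rcases S.eq_empty_or_nonempty with rfl | ⟨p, hp⟩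
  · simp
  · have h1 := cons (2 * r) p.1 p.2 (S.image Subtype.val) (fun x hx => by
        obtain ⟨y, _, rfl⟩ := Finset.mem_image.mp hx
        exact y.2) (fun q hq => by
        obtain ⟨y, hy, rfl⟩ := Finset.mem_image.mp hq
        have h2 := hS p hp
        have h3 := hS y hy
        rw [add_comm] at h3
        have h4 := tri h2 h3
        rwa [← Nat.two_mul] at h4)
    rwa [Finset.card_image_of_injective _ Subtype.val_injective] at h1

end

section main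

variable {k : C7} {n : ℕ} {X : Type} {XS : Finset X} {T D F : Set (X →₀ ZMod 2)}
    {A0 : Finset (X × X)} {th : X × X → X} {pxy pxu : X → X → X} {sq : X → X}
    {Tl : X → Set (X →₀ ZMod 2)} {Pl : X → Finset X} {Ml : X → (X →₀ ZMod 2) →+ (X →₀ ZMod 2)}
    {Tm : X × X → Set (X →₀ ZMod 2)} {Pm : X × X → Finset X}
    {T1 Ts : Set (X →₀ ZMod 2)} {P1 Ps : Finset X} {φ : (X →₀ ZMod 2) →+ (X →₀ ZMod 2)}

open Classical in
/-- the lines as pairs of letters of `XS` -/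
noncomputable def lft (XS : Finset X) (A : Finset (X × X)) : Finset (XS × XS) :=
  Finset.univ.filter fun p => (p.1.1, p.2.1) ∈ A

theorem mem_lft {A : Finset (X × X)} {p : XS × XS} : p ∈ lft XS A ↔ (p.1.1, p.2.1) ∈ A := by
  simp [lft]

theorem card_lft {A : Finset (X × X)} (h1 : ∀ p ∈ A, p.1 ∈ XS) (h2 : ∀ p ∈ A, p.2 ∈ XS) :
    A.card ≤ (lft XS A).card := by
  classical
  have h3 : A ⊆ (lft XS A).image (fun p => (p.1.1, p.2.1)) := by
    intro p hp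
    refine Finset.mem_image.mpr ⟨(⟨p.1, h1 p hp⟩, ⟨p.2, h2 p hp⟩), ?_, rfl⟩
    rw [mem_lft]
    exact hp
  exact (Finset.card_le_card h3).trans Finset.card_image_le

open Classical in
/-- the third letter -/
noncomputable def thl (XS : Finset X) (th : X × X → X) (p : XS × XS) : XS :=
  if h : th (p.1.1, p.2.1) ∈ XS then ⟨th (p.1.1, p.2.1), h⟩ else p.1

theorem thl_val {p : XS × XS} (h : th (p.1.1, p.2.1) ∈ XS) : (thl XS th p).1 = th (p.1.1, p.2.1) := by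
  unfold thl
  rw [dif_pos h]

/-- the map of a slot -/
noncomputable abbrev mp (k : C7) (T T' : Set (X →₀ ZMod 2)) (P : Finset X)
    (M : (X →₀ ZMod 2) →+ (X →₀ ZMod 2)) : (X →₀ ZMod 2) → (X →₀ ZMod 2) :=
  MK' (Ball T) k.κ2 k.K22 k.R0 k.m2 (Ball T') (Full P k.L0) M

theorem killData7 (h : In7 k n XS T D F A0 th pxy pxu sq Tl Pl Ml Tm Pm T1 Ts P1 Ps φ)
    {C Cp Lm H : ℕ} (hCp : k.Cp C Lm ≤ Cp) (hH : Hok T D ((k.l1 + 6) * k.κ + 1) H)
    (hH1 : 3 * Lm + 2 * k.LBk (k.Λ Lm) + 2 * k.b3 + 10 * k.C00 < H)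
    {A : Finset (X × X)} (hA : A ⊆ A0) (hA2 : A0.card ≤ 2 * A.card)
    (gx : ∀ p ∈ A, Gap (Ball T) (Ball (Tl p.1)) (Full (Pl p.1) k.L0) k.s0 C Cp)
    (gy : ∀ p ∈ A, Gap (Ball T) (Ball (Tl p.2)) (Full (Pl p.2) k.L0) k.s0 C Cp)
    (gu : ∀ p ∈ A, Gap (Ball T) (Ball (Tl (th p))) (Full (Pl (th p)) k.L0) k.s0 C Cp)
    (g1 : Gap (Ball T) (Ball T1) (Full P1 k.L0) k.s0 C Cp)
    (gs : Gap (Ball T) (Ball Ts) (Full Ps k.L0) k.s0 C Cp)
    {D1 : Finset (X →₀ ZMod 2)} (hD1 : D1.card ≤ k.Kd * n)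
    (hD1' : ∀ p ∈ XS, ∀ e ∈ D, ∃ d ∈ D1, sy p + e + d ∈ Ball T k.b3) :
    S8.KillData (k.c8 C) Lm (NH T H) (Kc T D) (fun x : XS => sy x.1) (fun x : XS => sy x.1)
      (fun x : XS => sy x.1) (lft XS A) (thl XS th) (fun x y : XS => sy (pxy x.1 y.1))
      (fun x u : XS => sy (pxu x.1 u.1)) (fun x : XS => sy (sq x.1))
      (fun x : XS => mp k T (Tl x.1) (Pl x.1) (Ml x.1)) (fun x : XS => mp k T (Tl x.1) (Pl x.1) (Ml x.1))
      (fun x : XS => mp k T (Tl x.1) (Pl x.1) (Ml x.1)) (mp k T T1 P1 φ) D1 D1 := by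
  classical
  have hn := h.npos
  have amb : Amb (Ball T) D k.κ k.R0 k.Λ := amb_ball_ge h.coarse (by unfold C7.R0; omega)
  have hAu : ∀ p ∈ lft XS A, (thl XS th p).1 = th (p.1.1, p.2.1) := fun p hp =>
    thl_val (h.Au _ (hA (mem_lft.mp hp)))
  have hSx : ∀ p ∈ A, SubM (Ball T) D k.κ2 k.k12 k.K22 k.m2 k.s0 C Cp k.κ6 (Ball (Tl p.1))
      (Full (Pl p.1) k.L0) (Ml p.1) := fun p hp =>
    slot_sub hn h.coarse h.sym h.cons h.covD (h.slx p (hA hp)) (h.Plx p (hA hp)) (h.Mlx p (hA hp))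
      (h.Mltx p (hA hp)) (gx p hp)
  have hSy : ∀ p ∈ A, SubM (Ball T) D k.κ2 k.k12 k.K22 k.m2 k.s0 C Cp k.κ6 (Ball (Tl p.2))
      (Full (Pl p.2) k.L0) (Ml p.2) := fun p hp =>
    slot_sub hn h.coarse h.sym h.cons h.covD (h.sly p (hA hp)) (h.Ply p (hA hp)) (h.Mly p (hA hp))
      (h.Mlty p (hA hp)) (gy p hp)
  have hSu : ∀ p ∈ A, SubM (Ball T) D k.κ2 k.k12 k.K22 k.m2 k.s0 C Cp k.κ6 (Ball (Tl (th p)))
      (Full (Pl (th p)) k.L0) (Ml (th p)) := fun p hp =>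
    slot_sub hn h.coarse h.sym h.cons h.covD (h.slu p (hA hp)) (h.Plu p (hA hp)) (h.Mlu p (hA hp))
      (h.Mltu p (hA hp)) (gu p hp)
  have hS1 : SubM (Ball T) D k.κ2 k.k12 k.K22 k.m2 k.s0 C Cp k.κ6 (Ball T1) (Full P1 k.L0) φ :=
    slot_sub hn h.coarse h.sym h.cons h.covD h.sl1 h.P1S (fun t ht => Ball.one (h.Tss (h.φT t ht)))
      (fun q hq => by
        obtain ⟨q', hq', hq2⟩ := h.φP q hq
        exact ⟨q', h.PsS hq', hq2⟩) g1
  have hSs : Pair (Ball T) (Ball Ts) D (Full Ps k.L0) k.κ2 k.k12 k.K22 k.m2 :=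
    slot_pair hn h.cons h.covD (slot_sq h.sl1 h.Tss h.φT h.φP h.φPs h.φiso) h.PsS
  have hL0 : 2 ≤ k.L0 := by unfold C7.L0; omega
  have h6 : k.κ6 ≤ R2 k.κ2 k.K22 k.R0 + k.R0 := by unfold C7.R0; omega
  have hc1 : 2 * k.b3 + 9 * k.C00 + k.RRk + k.κ2 ≤ k.s0 := by unfold C7.s0; omega
  have hc2 : 2 * ((k.Λ (2 * Lm + k.κ6) + 1) * (k.k12 + k.κ2)) + k.LBk (k.Λ Lm) + k.κ2 ≤ Cp := by
    unfold C7.Cp at hCp
    omega
  have hHL : Lm < H := by omega
  have hHr : 2 * k.b3 + 9 * k.C00 < H := by omega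
  have hbig : C + k.κ2 ≤ (k.c8 C).C := by
    show C + k.κ2 ≤ 3 * (C + k.κ2) + k.L0 * k.e0 + k.κ6 + k.C00
    omega
  have hcg := CoarseF.level h.coarse (M := k.M0) (fun u hu =>
    ⟨h.Dfin.subset fun v hv => hv.1, h.ballD u hu⟩) hH
  have hnet : ∀ x : XS, ∀ e ∈ Kc T D, ∃ d ∈ D1, NH T H (sy x.1 + e + d) ≤ (k.c8 C).κ := fun x e he => by
    obtain ⟨d, hd, hd'⟩ := hD1' x.1 x.2 e he.1
    exact ⟨d, hd, NH_le hd'⟩
  have hball : ∀ r, r < H → ∀ g : X →₀ ZMod 2, ∀ S : Finset XS, (∀ x ∈ S, NH T H (sy x.1 + g) ≤ r) →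
      S.card ≤ k.C (2 * r) := fun r hr g S hS => ball7 h.cons g r S fun x hx => NH_ball hr (hS x hx)
  refine
    { two := hcg.two
      N0 := hcg.N0
      Nadd := hcg.Nadd
      zero := hcg.zero
      add := ?_
      cover := ?_
      chain := hcg.chain
      chainΛ := ?_
      line := ?_
      ident := ?_
      h1 := ?_
      h2 := ?_
      h3 := ?_
      h4 := ?_
      hsum := ?_
      MxK := ?_
      Mxadd := ?_
      φ0 := ?_
      φdense := ?_
      φinv := ?_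
      net1 := hnet
      net2 := hnet
      dens := ?_
      Apos := ?_
      ball1 := ?_
      ball2 := ?_
      ball3 := ?_ }
  · intro a ha b hb
    obtain ⟨c, hc, hc'⟩ := hcg.add a ha b hb
    exact ⟨c, hc, hc'.trans (Nat.le_add_right _ _)⟩
  · intro r
    obtain ⟨S, h1, h2, h3⟩ := hcg.cover r
    refine ⟨S, h1, h2, fun a ha har => ?_⟩
    obtain ⟨s, hs, hs'⟩ := h3 a ha har
    exact ⟨s, hs, hs'.trans (Nat.le_add_right _ _)⟩
  · intro r u hu v hv huv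
    exact CoarseF.level_chain h.coarse hH r u hu v hv huv
  · intro p hp
    have h1 := h.line _ (hA (mem_lft.mp hp))
    rw [hAu p hp]
    exact (NH_le h1).trans (Nat.le_add_left _ _)
  · intro p hp
    have h1 := h.ident _ (hA (mem_lft.mp hp))
    rw [hAu p hp]
    refine (NH_le h1).trans ?_
    show k.e0 ≤ 3 * (C + k.κ2) + k.L0 * k.e0 + k.κ6 + k.C00
    unfold C7.C00
    omega
  · -- h1
    intro g
    obtain ⟨c, hc⟩ := fam_N amb (ι := XS) (Y := XS) (H := H) (fun y => ∃ x, (x, y) ∈ lft XS A)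
      (B' := fun y => Ball (Tl y.1)) (D' := fun y => Full (Pl y.1) k.L0) (M := fun y => Ml y.1)
      (fun y ⟨x, hx⟩ => hSy _ (mem_lft.mp hx))
      (fun y => {x | (x, y) ∈ lft XS A}) (fun x => sy x.1)
      (fun y _ p hp p' hp' => Full.pair hL0 (h.yx _ (hA (mem_lft.mp hp))).1 (h.yx _ (hA (mem_lft.mp hp'))).1)
      h6 hc1 hc2 hHL hHr (q := k.q) le_rfl g
    refine ⟨c, fun x x' y hx hx' hg hg' hcc e he heL her => ?_⟩
    have h1 := hc y ⟨x, hx⟩ x hx x' hx' hg hg' hcc e he heL her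
    rw [(h.yx _ (hA (mem_lft.mp hx))).2, (h.yx _ (hA (mem_lft.mp hx'))).2] at h1
    exact h1.trans hbig
  · -- h2
    intro g
    obtain ⟨c, hc⟩ := fam_N amb (ι := XS) (Y := XS) (H := H) (fun x => ∃ y, (x, y) ∈ lft XS A)
      (B' := fun y => Ball (Tl y.1)) (D' := fun y => Full (Pl y.1) k.L0) (M := fun y => Ml y.1)
      (fun x ⟨y, hy⟩ => hSx _ (mem_lft.mp hy))
      (fun x => {y | (x, y) ∈ lft XS A}) (fun x => sy x.1)
      (fun x _ p hp p' hp' => Full.pair hL0 (h.xy _ (hA (mem_lft.mp hp))).1 (h.xy _ (hA (mem_lft.mp hp'))).1)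
      h6 hc1 hc2 hHL hHr (q := k.q) le_rfl g
    refine ⟨c, fun x y y' hy hy' hg hg' hcc e he heL her => ?_⟩
    have h1 := hc x ⟨y, hy⟩ y hy y' hy' hg hg' hcc e he heL her
    rw [(h.xy _ (hA (mem_lft.mp hy))).2, (h.xy _ (hA (mem_lft.mp hy'))).2] at h1
    exact h1.trans hbig
  · -- h3
    intro g
    obtain ⟨c, hc⟩ := fam_N amb (ι := XS) (Y := XS) (H := H) (fun u => ∃ p ∈ lft XS A, thl XS th p = u)
      (B' := fun y => Ball (Tl y.1)) (D' := fun y => Full (Pl y.1) k.L0) (M := fun y => Ml y.1)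
      (fun u ⟨p, hp, hpu⟩ => by
        have h1 := hSu _ (mem_lft.mp hp)
        rw [← hAu p hp, hpu] at h1
        exact h1)
      (fun u => {x | ∃ p ∈ lft XS A, thl XS th p = u ∧ p.1 = x}) (fun x => sy x.1)
      (fun u _ x hx x' hx' => by
        obtain ⟨p, hp, hpu, rfl⟩ := hx
        obtain ⟨p', hp', hpu', rfl⟩ := hx'
        have h1 := (h.ux _ (hA (mem_lft.mp hp))).1
        have h2 := (h.ux _ (hA (mem_lft.mp hp'))).1
        rw [← hAu p hp, hpu] at h1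
        rw [← hAu p' hp', hpu'] at h2
        exact Full.pair hL0 h1 h2)
      h6 hc1 hc2 hHL hHr (q := k.q) le_rfl g
    refine ⟨c, fun p hp p' hp' hpp hg hg' hcc e he heL her => ?_⟩
    have h1 := hc (thl XS th p) ⟨p, hp, rfl⟩ p.1 ⟨p, hp, rfl, rfl⟩ p'.1 ⟨p', hp', hpp.symm, rfl⟩ hg hg'
      hcc e he heL her
    have h2 := (h.ux _ (hA (mem_lft.mp hp))).2
    have h3 := (h.ux _ (hA (mem_lft.mp hp'))).2
    rw [← hAu p hp] at h2
    rw [← hAu p' hp', ← hpp] at h3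
    rw [h2, h3] at h1
    exact h1.trans hbig
  · -- h4
    intro g
    obtain ⟨c, hc⟩ := one_N amb (ι := XS) (H := H) hS1 {x | ∃ p ∈ lft XS A, p.1 = x} (fun x => sy x.1)
      (fun x hx x' hx' => by
        obtain ⟨p, hp, rfl⟩ := hx
        obtain ⟨p', hp', rfl⟩ := hx'
        exact Full.pair hL0 (h.φx _ (hA (mem_lft.mp hp))).1 (h.φx _ (hA (mem_lft.mp hp'))).1)
      h6 hc1 hc2 hHL hHr (q := k.q) le_rfl g
    refine ⟨c, fun p hp p' hp' hg hg' hcc e he heL her => ?_⟩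
    have h1 := hc p.1 ⟨p, hp, rfl⟩ p'.1 ⟨p', hp', rfl⟩ hg hg' hcc e he heL her
    rw [(h.φx _ (hA (mem_lft.mp hp))).2, (h.φx _ (hA (mem_lft.mp hp'))).2] at h1
    exact h1.trans hbig
  · -- hsum
    intro p hp e he heL
    have hpA := mem_lft.mp hp
    have h1 := hsum_N amb (H := H) (Lmax := Lm) (k5 := 0) (c0 := k.L0 * k.e0)
      (slot_pair hn h.cons h.covD (h.slm _ (hA hpA)) ((h.Pmx _ (hA hpA)).trans (h.Plx _ (hA hpA))))
      (hSx _ hpA) (hSy _ hpA) (hSu _ hpA)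
      (fun r => ball_le (h.Tmx _ (hA hpA)) r) (fun r => ball_le (h.Tmy _ (hA hpA)) r)
      (fun r => ball_le (h.Tmu _ (hA hpA)) r)
      (fun x hx => ⟨x, Full.mono (h.Pmx _ (hA hpA)) hx, by rw [two_eq]; exact Ball.zero _ _⟩)
      (fun x hx => ⟨x, Full.mono (h.Pmy _ (hA hpA)) hx, by rw [two_eq]; exact Ball.zero _ _⟩)
      (fun x hx => ⟨x, Full.mono (h.Pmu _ (hA hpA)) hx, by rw [two_eq]; exact Ball.zero _ _⟩)
      (by
        rintro x ⟨l, hl, -, hl2, rfl⟩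
        have key : ∀ l : List X, (∀ x ∈ l, x ∈ Pm (p.1.1, p.2.1)) →
            Ml p.1.1 (wd l) + Ml p.2.1 (wd l) + Ml (th (p.1.1, p.2.1)) (wd l) ∈
              Ball T (l.length * k.e0) := by
          intro l
          induction l with
          | nil =>
            intro _
            rw [wd_nil, map_zero, map_zero, map_zero, add_zero, add_zero]
            exact Ball.zero _ _
          | cons x l ih =>
            intro hl
            have h2 := ih fun z hz => hl z (List.mem_cons_of_mem _ hz)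
            have h3 := h.Msum _ (hA hpA) x (hl x List.mem_cons_self)
            have h4 := ball_add h2 h3
            rw [wd_cons, map_add, map_add, map_add, List.length_cons, Nat.add_mul, Nat.one_mul]
            convert h4 using 1
            abel
        exact Ball.mono (Nat.mul_le_mul_right _ hl) (key l hl2))
      (by
        show 2 * k.RRk + 0 + k.κ2 ≤ k.s0
        unfold C7.s0
        omega)
      (by
        show 2 * k.LBk (k.Λ Lm) + 0 + k.κ2 ≤ Cp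
        unfold C7.Cp at hCp
        omega) hHL he heL
    rw [hAu p hp]
    refine h1.trans ?_
    show 3 * (C + k.κ2 + 0) + k.L0 * k.e0 ≤ 3 * (C + k.κ2) + k.L0 * k.e0 + k.κ6 + k.C00
    omega
  · -- MxK
    intro p hp u hu huL
    obtain ⟨v, hv, hv'⟩ := MK_N amb (hSx _ (mem_lft.mp hp)) hHL hu huL
    refine ⟨v, hv, hv'.trans ?_⟩
    show k.κ6 ≤ 3 * (C + k.κ2) + k.L0 * k.e0 + k.κ6 + k.C00
    omega
  · -- Mxadd
    intro p hp u hu v hv w hw huL hvL hwL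
    have h1 := add_N amb (Lmax := Lm) (H := H) (hSx _ (mem_lft.mp hp))
      (by
        show k.κ + 3 * k.RRk + 2 * k.κ2 ≤ k.s0
        unfold C7.s0
        omega)
      (by
        show 3 * k.LBk (k.Λ (3 * Lm + 2 * k.κ)) + 2 * k.κ2 ≤ Cp
        unfold C7.Cp at hCp
        omega) (by omega) hu hv hw huL hvL hwL
    refine h1.trans ?_
    show 2 * (C + 2 * k.κ2) + k.LBk (k.Λ (NH T H (u + v + w) + 2 * k.κ)) ≤
      2 * (C + 2 * k.κ2) + k.LBk (k.Λ (NH T H (u + v + w) + 2 * k.κ)) +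
        k.LBk (k.Λ (NH T H (u + v + w) + k.κ2 + k.κ6)) + 2 * k.RRk
    omega
  · -- φ0
    refine (zero_N amb hS1 h.coarse.zero (by
        show k.RRk + k.κ2 ≤ k.s0
        unfold C7.s0
        omega)
      (by
        show k.LBk (k.Λ 0) + k.κ2 ≤ Cp
        unfold C7.Cp at hCp
        omega)).trans ?_
    show C + k.κ2 ≤ C + k.κ2 + k.RRk
    omega
  · -- φdense
    intro u hu huL
    obtain ⟨v, hv, hv1, hv2⟩ := phi_dense_N amb (Lmax := Lm) (H := H) hS1 hSs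
      (by
        rintro y ⟨l, hl1, hl2, hl3, rfl⟩
        have hback : ∀ l : List X, (∀ x ∈ l, x ∈ Ps) →
            ∃ l' : List X, l'.length = l.length ∧ (∀ x ∈ l', x ∈ P1) ∧ φ (wd l') = wd l := by
          intro l
          induction l with
          | nil => exact fun _ => ⟨[], rfl, by simp, by rw [wd_nil, map_zero]⟩
          | cons x l ih =>
            intro hl
            obtain ⟨l', g1, g2, g3⟩ := ih fun z hz => hl z (List.mem_cons_of_mem _ hz)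
            obtain ⟨q, hq, hq'⟩ := h.φPs x (hl x List.mem_cons_self)
            refine ⟨q :: l', by simp [g1], fun z hz => ?_, ?_⟩
            · rcases List.mem_cons.mp hz with rfl | hz
              · exact hq
              · exact g2 z hz
            · rw [wd_cons, wd_cons, map_add, hq', g3]
        obtain ⟨l', g1, g2, g3⟩ := hback l hl3
        exact ⟨wd l', ⟨l', by omega, by rw [g1]; exact hl2, g2, rfl⟩, g3⟩)
      (by
        rintro r x ⟨l, -, -, hl3, rfl⟩ hx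
        exact h.φiso l r hl3 hx)
      (by
        show k.κ6 + k.RRk + k.κ2 ≤ k.s0
        unfold C7.s0
        omega)
      (by
        show k.LBk (k.Λ Lm) + k.LBk (k.Λ (k.LBk (k.Λ Lm) + k.κ6)) + k.κ2 ≤ Cp
        unfold C7.Cp at hCp
        omega) hHL hu huL
    exact ⟨v, hv, hv1, hv2⟩
  · -- φinv
    intro u hu v hv huL hvL
    have h1 := phi_inv_N amb (Lmax := Lm) (H := H) hS1 hSs gs
      (fun r => map_ball (fun t ht => Ball.one (h.φT t ht)) r)
      (by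
        rintro x ⟨l, hl1, hl2, hl3, rfl⟩
        obtain ⟨l', g1, g2, g3⟩ := map_word h.φP l hl3
        exact ⟨l', by omega, by rw [g1]; exact hl2, g2, g3.symm⟩)
      (by
        rintro r x ⟨l, -, -, hl3, rfl⟩ hx
        exact h.φiso l r hl3 hx)
      (fun x hx => full_near h.coarse (fun x hx => h.sym x (h.PsS hx)) hx)
      (by
        show k.RRk + k.κ6 + k.κ2 ≤ k.s0
        unfold C7.s0
        omega)
      (by
        show 2 * k.LBk (k.Λ Lm) + k.κ2 + k.LBk (k.Λ (2 * k.LBk (k.Λ Lm) + k.κ2 + k.κ6)) + k.κ2 ≤ Cp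
        unfold C7.Cp at hCp
        omega) hHL (by
        show 2 * k.LBk (k.Λ Lm) < H
        omega) hu hv huL hvL
    refine h1.trans ?_
    set s := NH T H (mp k T T1 P1 φ u + mp k T T1 P1 φ v)
    show k.LBk (k.Λ (s + k.κ2 + k.κ6)) + C + 2 * k.κ2 + 2 * k.RRk ≤
      2 * (C + 2 * k.κ2) + k.LBk (k.Λ (s + 2 * k.κ)) + k.LBk (k.Λ (s + k.κ2 + k.κ6)) + 2 * k.RRk
    omega
  · -- dens
    have h1 : n ^ 2 ≤ (2 * (lft XS A).card) * k.c0 := by
      refine h.dens.trans (Nat.mul_le_mul_right _ (hA2.trans (Nat.mul_le_mul_left 2 ?_)))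
      exact card_lft (fun p hp => h.Ax p (hA hp)) (fun p hp => h.Ay p (hA hp))
    have h2 : D1.card * D1.card ≤ (k.Kd * n) * (k.Kd * n) := Nat.mul_le_mul hD1 hD1
    have h3 : ((D1.card : ℝ) * (D1.card : ℝ)) ≤ (k.Kd : ℝ) ^ 2 * (n : ℝ) ^ 2 := by
      have h4 : ((D1.card * D1.card : ℕ) : ℝ) ≤ (((k.Kd * n) * (k.Kd * n) : ℕ) : ℝ) := by exact_mod_cast h2
      push_cast at h4
      nlinarith
    have h5 : (n : ℝ) ^ 2 ≤ 2 * ((lft XS A).card : ℝ) * k.c0 := by exact_mod_cast h1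
    show 1 / (2 * (k.c0 : ℝ) * (k.Kd : ℝ) ^ 2 + 1) * ((D1.card : ℝ) * (D1.card : ℝ)) ≤
      ((lft XS A).card : ℝ)
    rw [one_div, inv_mul_le_iff₀ (by positivity)]
    have h6 : (k.Kd : ℝ) ^ 2 * (n : ℝ) ^ 2 ≤ (k.Kd : ℝ) ^ 2 * (2 * ((lft XS A).card : ℝ) * k.c0) :=
      mul_le_mul_of_nonneg_left h5 (by positivity)
    have h7 : (0 : ℝ) ≤ ((lft XS A).card : ℝ) := Nat.cast_nonneg _
    nlinarith
  · -- Apos
    by_contra hcon
    rw [Finset.not_nonempty_iff_eq_empty] at hcon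
    have h1 := card_lft (XS := XS) (A := A) (fun p hp => h.Ax p (hA hp)) (fun p hp => h.Ay p (hA hp))
    rw [hcon, Finset.card_empty] at h1
    have h2 := h.dens
    have h3 : A0.card = 0 := by omega
    rw [h3, Nat.zero_mul] at h2
    have h4 : 0 < n ^ 2 := pow_pos hn 2
    omega
  · intro g S hS
    exact (hball k.b3 (by omega) g S hS).trans (Nat.le_add_right _ _)
  · intro g S hS
    exact (hball k.b3 (by omega) g S hS).trans (Nat.le_add_right _ _)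
  · intro g S hS
    exact (hball (2 * k.b3 + 10 * k.C00) (by omega) g S hS).trans (Nat.le_add_left _ _)

end main

end Pool.Agent.helper16.MF
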